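import Pool.Agent.Gab7_h87.CB.DG

/-! Certificate; see `Pool/Agent/Gab7_h87/Ax.lean`. -/

set_option autoImplicit false
set_option maxRecDepth 100000

namespace Pool.Agent.Gab7_h87.CB

open Pool.Agent.Gab7_h87.Sat

/-- the hints of the clauses from number 3972 -/
def h0 : Tr Nat := (.node (.node (.node (.node (.node (.node (.node (.node (.node (.node (.leaf 10751285661330)
(.leaf 1241724752245))
(.node (.leaf 2323880872446)
(.leaf 6056722826987)))
(.node (.node (.leaf 13550719339257)
(.leaf 11085614156286))
(.node (.leaf 11313247422974)
(.leaf 12635912277147))))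
(.node (.node (.node (.leaf 4011803019774)
(.leaf 12787100159634))
(.node (.leaf 9311502206016)
(.leaf 16424665617062)))
(.node (.node (.leaf 8534113125440)
(.leaf 11270976704146))
(.node (.leaf 6752671108754)
(.leaf 15183685618997)))))
(.node (.node (.node (.node (.leaf 15062753872382)
(.leaf 5145383928896))
(.node (.leaf 5979615789925)
(.leaf 5618087236243)))
(.node (.node (.leaf 12361898397330)
(.leaf 4433388768914))
(.node (.leaf 4157541450816)
(.leaf 589393038994))))
(.node (.node (.node (.leaf 8878000966142)
(.leaf 5056126783841))
(.node (.leaf 15480083448677)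
(.leaf 9758469261822)))
(.node (.node (.leaf 26752323218)
(.leaf 13340471986686))
(.node (.leaf 13035242522365)
(.leaf 4046042171474))))))
(.node (.node (.node (.node (.node (.leaf 266301080640)
(.leaf 296831947125))
(.node (.leaf 12983699244096)
(.leaf 6356577817233)))
(.node (.node (.leaf 7872978618878)
(.leaf 11601689185938))
(.node (.leaf 1872618849344)
(.leaf 10002995611389))))
(.node (.node (.node (.leaf 13301817281022)
(.leaf 15531080946037))
(.node (.leaf 7430306530368)
(.leaf 1889798718528)))
(.node (.node (.leaf 7401211170450)
(.leaf 6645372424559))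
(.node (.leaf 9462145353968)
(.leaf 2967852813820)))))
(.node (.node (.node (.node (.leaf 10793265923136)
(.leaf 12202334488816))
(.node (.leaf 9106351981413)
(.leaf 7220110037651)))
(.node (.node (.leaf 11510609873657)
(.leaf 14237914106617))
(.node (.leaf 2861430738578)
(.leaf 25958955421478907545682))))
(.node (.node (.node (.leaf 10278839258770)
(.leaf 6915955364207))
(.node (.leaf 5154943274642)
(.leaf 11162650414588)))
(.node (.node (.leaf 14508703091198)
(.leaf 1963279257973))
(.leaf 18048510595439))))))
(.node (.node (.node (.node (.node (.node (.leaf 10312229585984)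
(.leaf 9934738559349))
(.node (.leaf 7275978164734)
(.leaf 15819385865061)))
(.node (.node (.leaf 1408932251730)
(.leaf 10377623506578))
(.node (.leaf 15286092171774)
(.leaf 9561416140523))))
(.node (.node (.node (.leaf 1791014470720)
(.leaf 7537971169790))
(.node (.leaf 7328196726418)
(.leaf 9587349524114)))
(.node (.node (.leaf 6206531308030)
(.leaf 7344873279861))
(.node (.leaf 12996668558073)
(.leaf 12615376965999)))))
(.node (.node (.node (.node (.leaf 4708266675858)
(.leaf 13856585810789))
(.node (.leaf 3518560734866)
(.leaf 16441404822163)))
(.node (.node (.leaf 5815568697426)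
(.leaf 10664707361278))
(.node (.leaf 10363769193536)
(.leaf 10977953187581))))
(.node (.node (.node (.leaf 12051981797886)
(.leaf 10973973842160))
(.node (.leaf 12790716172798)
(.leaf 4484128835666)))
(.node (.node (.leaf 1550786759166)
(.leaf 4231039029613))
(.leaf 10445377242877)))))
(.node (.node (.node (.node (.node (.leaf 3132013678226)
(.leaf 1361602153209))
(.node (.leaf 623073823230)
(.leaf 5768411091603)))
(.node (.node (.leaf 14701770574585)
(.leaf 1829720034692))
(.node (.leaf 11442775395986)
(.leaf 11172192456338))))
(.node (.node (.node (.leaf 5369012685310)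
(.leaf 15029111882597))
(.node (.leaf 12241639313042)
(.leaf 13092042837650)))
(.node (.node (.leaf 10145695272594)
(.leaf 11643809173856))
(.node (.leaf 12047400044285)
(.leaf 16738470071954)))))
(.node (.node (.node (.node (.leaf 11871387126521)
(.leaf 15470951403893))
(.node (.leaf 11407736703486)
(.leaf 14744892740243)))
(.node (.node (.leaf 16887824516160)
(.leaf 7233746240357))
(.node (.leaf 10772760497810)
(.leaf 2379428660989))))
(.node (.node (.node (.leaf 5695430199806)
(.leaf 2091952638462))
(.node (.leaf 7688004568128)
(.leaf 15407069004645)))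
(.node (.node (.leaf 5274232947776)
(.leaf 3557181362178))
(.leaf 2611819319669)))))))
(.node (.node (.node (.node (.node (.node (.node (.leaf 5411756313337)
(.leaf 9969098297717))
(.node (.leaf 12641071271570)
(.leaf 14728261797611)))
(.node (.node (.leaf 1834933554834)
(.leaf 4772041066736))
(.node (.leaf 10007337766276)
(.leaf 13229318211307))))
(.node (.node (.node (.leaf 5987487975934)
(.leaf 14809230215250))
(.node (.leaf 1915619380612)
(.leaf 11549499459824)))
(.node (.node (.leaf 8706920022885)
(.leaf 10626731609746))
(.node (.leaf 9655184001785)
(.leaf 3995138524907)))))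
(.node (.node (.node (.node (.leaf 7735539665406)
(.leaf 11278916520176))
(.node (.leaf 12087020490386)
(.leaf 13151459873427)))
(.node (.node (.leaf 13812797802578)
(.leaf 1396196772080))
(.node (.leaf 2053297932798)
(.leaf 4574229566126))))
(.node (.node (.node (.leaf 683203365374)
(.leaf 5888703728126))
(.node (.leaf 8834845248249)
(.leaf 16664776673790)))
(.node (.node (.leaf 10140515306233)
(.leaf 2955241064958))
(.node (.leaf 4037286037245)
(.leaf 8964618060645))))))
(.node (.node (.node (.node (.node (.leaf 7323901759122)
(.leaf 3930374279541))
(.node (.leaf 4914463900517)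
(.leaf 5162576908945)))
(.node (.node (.leaf 8993674626112)
(.leaf 12559505687397))
(.node (.leaf 9182704045444)
(.leaf 10480052603120))))
(.node (.node (.node (.leaf 8929334528761)
(.leaf 15767128508926))
(.node (.leaf 6554133201984)
(.leaf 2594249642670)))
(.node (.node (.leaf 4411234978302)
(.leaf 7615280581118))
(.node (.leaf 11258091802258)
(.leaf 3543592341704)))))
(.node (.node (.node (.node (.leaf 11523410363456)
(.leaf 6726251186416))
(.node (.leaf 816056894528)
(.leaf 14289626206867)))
(.node (.node (.leaf 4449599226944)
(.leaf 2310995970558))
(.node (.leaf 3054704266898)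
(.leaf 8354693910162))))
(.node (.node (.node (.leaf 11940022191168)
(.leaf 16492857395282))
(.node (.leaf 11863682190994)
(.leaf 38667813952)))
(.node (.node (.leaf 16325474257406)
(.leaf 6473537028965))
(.leaf 13546806055285))))))
(.node (.node (.node (.node (.node (.node (.leaf 9229897827392)
(.leaf 2916761997685))
(.node (.leaf 11497640559680)
(.leaf 19421960604827)))
(.node (.node (.leaf 15629689555454)
(.leaf 3767668838034))
(.node (.leaf 3290966262629)
(.leaf 3311432893504))))
(.node (.node (.node (.leaf 11219437096594)
(.leaf 7645054895168))
(.node (.leaf 4191952047492)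
(.leaf 64674341022094073007259)))
(.node (.node (.leaf 10527947361938)
(.leaf 17030364268267))
(.node (.leaf 3659615701502)
(.leaf 11922926734073)))))
(.node (.node (.node (.node (.leaf 9689749785086)
(.leaf 1503542118910))
(.node (.leaf 15977291449408)
(.leaf 1340299809427)))
(.node (.node (.leaf 8384758681234)
(.leaf 5394661902418))
(.node (.leaf 8903770769918)
(.leaf 16674111885689))))
(.node (.node (.node (.leaf 244826244160)
(.leaf 8019036342512))
(.node (.leaf 7258798295550)
(.leaf 10879356900003)))
(.node (.node (.leaf 13756963227730)
(.leaf 1752679057648))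
(.leaf 12520887685487)))))
(.node (.node (.node (.node (.node (.leaf 13315381137042)
(.leaf 5059775039998))
(.node (.leaf 4261590077074)
(.leaf 4737618940563)))
(.node (.node (.leaf 2456785259908)
(.leaf 13683863325433))
(.node (.leaf 15096874012036)
(.leaf 14392767809776))))
(.node (.node (.node (.leaf 14478638320126)
(.leaf 13941767408126))
(.node (.leaf 14616077273598)
(.leaf 4050184572412)))
(.node (.node (.leaf 8980959594578)
(.leaf 10601037304175))
(.node (.leaf 7211266868989)
(.leaf 1877283180914)))))
(.node (.node (.node (.node (.leaf 8509312732818)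
(.leaf 14006071330898))
(.node (.leaf 7675410123262)
(.leaf 5442706083474)))
(.node (.node (.leaf 11802583237696)
(.leaf 16853464777792))
(.node (.leaf 9375926715456)
(.leaf 14525605614225))))
(.node (.node (.node (.leaf 180486146809)
(.leaf 10738400759442))
(.node (.leaf 747627874814)
(.leaf 1932673709522877590547047525398043914309426284006925575397209635384159339077304510756163991)))
(.node (.node (.leaf 13190865879909)
(.leaf 7980352801278))
(.leaf 6833772171637))))))))
(.node (.node (.node (.node (.node (.node (.node (.node (.leaf 3522855702162)
(.leaf 3268949315957))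
(.node (.leaf 11093998045945)
(.leaf 5653211648405)))
(.node (.node (.leaf 8440593256082)
(.leaf 7427019768677))
(.node (.leaf 2079785485157)
(.leaf 12657875751568))))
(.node (.node (.node (.leaf 13018349439486)
(.leaf 3630229884562))
(.node (.leaf 12730380585721)
(.leaf 15990799995287)))
(.node (.node (.leaf 5880831542117)
(.leaf 10575192002194))
(.node (.leaf 8754125868690)
(.leaf 16801942474236)))))
(.node (.node (.node (.node (.leaf 678908398078)
(.leaf 4618072362642))
(.node (.leaf 6336059281042)
(.leaf 8057628660371)))
(.node (.node (.leaf 111972715006)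
(.leaf 3423392500222))
(.node (.leaf 146041996352)
(.leaf 13778558650878))))
(.node (.node (.node (.leaf 3483522042366)
(.leaf 15496258782973))
(.node (.leaf 8216576002558)
(.leaf 16124126168811)))
(.node (.node (.leaf 14431397875686)
(.leaf 5914414289096))
(.node (.leaf 13589293303549)
(.leaf 258645947559840913544007014766325406814119030534556655228579502038534503441766139929189732602614349))))))
(.node (.node (.node (.node (.node (.leaf 8827140312722)
(.leaf 11536761360757))
(.node (.leaf 7207976436581)
(.leaf 1765257777809)))
(.node (.node (.leaf 9904292104953)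
(.leaf 10836534888688))
(.node (.leaf 6993189277330)
(.leaf 15750464014059))))
(.node (.node (.node (.leaf 3827119426046)
(.leaf 13907407669758))
(.node (.leaf 1593736432126)
(.leaf 10579486969490)))
(.node (.node (.leaf 3135423646457)
(.leaf 6919495879166))
(.node (.leaf 8681111424658)
(.leaf 16308973342354)))))
(.node (.node (.node (.node (.leaf 14255978974866)
(.leaf 7942377049746))
(.node (.leaf 2530718256786)
(.leaf 12481444975251)))
(.node (.node (.leaf 4393849064185)
(.leaf 10368064160832))
(.node (.leaf 7288657021689)
(.leaf 14572942527643))))
(.node (.node (.node (.leaf 10325404944894)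
(.leaf 11476456180222))
(.node (.leaf 9036675157380)
(.leaf 7043763144445)))
(.node (.node (.leaf 13975921101561)
(.leaf 13456951477995))
(.leaf 2259632001397))))))
(.node (.node (.node (.node (.node (.node (.leaf 12112790294162)
(.leaf 356961489269))
(.node (.leaf 7499316464126)
(.leaf 7847088228434)))
(.node (.node (.leaf 10832890039954)
(.leaf 5076834322514))
(.node (.leaf 1237254146558)
(.leaf 14895587529486))))
(.node (.node (.node (.leaf 10621757688318)
(.leaf 10759196641790))
(.node (.leaf 10871544745618)
(.leaf 8757770717424)))
(.node (.node (.leaf 11318260138853)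
(.leaf 12228075457022))
(.node (.leaf 1980077443833)
(.leaf 854728904188)))))
(.node (.node (.node (.node (.leaf 3401627206720)
(.leaf 12340423560850))
(.node (.leaf 5776913991762)
(.leaf 9685421265555)))
(.node (.node (.leaf 13628114208850)
(.leaf 9367340451581))
(.node (.leaf 7129658819648)
(.leaf 7619541996179))))
(.node (.node (.node (.leaf 14590307469822)
(.leaf 3003203453797))
(.node (.leaf 6580193462782)
(.leaf 2280931199486)))
(.node (.node (.leaf 6373828987641)
(.leaf 5129173470866))
(.leaf 18940822554365)))))
(.node (.node (.node (.node (.node (.leaf 1967192541945)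
(.leaf 426184281746))
(.node (.leaf 6846190978112)
(.leaf 2538595685011)))
(.node (.node (.leaf 6038737126464)
(.leaf 16372479298948))
(.node (.leaf 10910199451282)
(.leaf 14126626640245))))
(.node (.node (.node (.leaf 16643980791442)
(.leaf 13795448063040))
(.node (.leaf 7976736788114)
(.leaf 11480630560850)))
(.node (.node (.leaf 16265344715262)
(.leaf 16257270154987))
(.node (.leaf 10917823645437)
(.leaf 2542718159609)))))
(.node (.node (.node (.node (.leaf 16170855434750)
(.leaf 34692139248))
(.node (.leaf 16983283207826)
(.leaf 5133304858347)))
(.node (.node (.leaf 6215121242622)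
(.leaf 13692659304958))
(.node (.leaf 7284328500612)
(.leaf 14659705900690))))
(.node (.node (.node (.leaf 5604945429568)
(.leaf 10823649986800))
(.node (.leaf 3195759233534)
(.leaf 8027626277104)))
(.node (.node (.leaf 15969636847618)
(.leaf 16832309233904))
(.leaf 4578914341237)))))))
(.node (.node (.node (.node (.node (.node (.node (.leaf 6051622028352)
(.leaf 2620409254261))
(.node (.leaf 12193425261632)
(.leaf 15364156035439)))
(.node (.node (.leaf 16948923469458)
(.leaf 11485644067225))
(.node (.leaf 15436209982201)
(.leaf 9517951093246))))
(.node (.node (.node (.leaf 2049002965502)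
(.leaf 10188141629813))
(.node (.leaf 2061597410368)
(.leaf 2362535578110)))
(.node (.node (.leaf 1160662483813)
(.leaf 8237764052733))
(.node (.leaf 16399206450021)
(.leaf 5626423936765)))))
(.node (.node (.node (.node (.leaf 16952539482622)
(.leaf 14078915904576))
(.node (.leaf 2448195325316)
(.leaf 5536482857619)))
(.node (.node (.leaf 644309060996)
(.leaf 8187190185618))
(.node (.leaf 2220681070674)
(.leaf 8486885789180))))
(.node (.node (.node (.leaf 4794166021778)
(.leaf 10643261360368))
(.node (.leaf 3229879373188)
(.leaf 7834117868281)))
(.node (.node (.leaf 529302291301)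
(.leaf 7954582997502))
(.node (.leaf 2568407222013)
(.leaf 11992367630059))))))
(.node (.node (.node (.node (.node (.leaf 2384689368722)
(.leaf 9779704499588))
(.node (.leaf 1275908852222)
(.leaf 7829751599761)))
(.node (.node (.leaf 6236475492434)
(.leaf 6975330454014))
(.node (.leaf 9075569461758)
(.leaf 9861514924691))))
(.node (.node (.node (.leaf 13554929894464)
(.leaf 14788051603829))
(.node (.leaf 7912312278674)
(.leaf 9084642005604)))
(.node (.node (.leaf 11175808469502)
(.leaf 11116396675941))
(.node (.leaf 11888482583616)
(.leaf 16905004385344)))))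
(.node (.node (.node (.node (.leaf 13155788392958)
(.leaf 8298180381182))
(.node (.leaf 9243752140434)
(.leaf 2701804442259)))
(.node (.node (.leaf 13194322511954)
(.leaf 2534363105520))
(.node (.leaf 11739128139410)
(.leaf 1847857251173))))
(.node (.node (.node (.leaf 3255888775678)
(.leaf 13482923656037))
(.node (.leaf 13005343950930)
(.leaf 8525745230411)))
(.node (.node (.leaf 11987557288446)
(.leaf 16789975601154))
(.leaf 3260359381365))))))
(.node (.node (.node (.node (.node (.node (.leaf 12602416565906)
(.leaf 15264792973685))
(.node (.leaf 9179327630994)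
(.leaf 17128355795601)))
(.node (.node (.leaf 16137174650514)
(.leaf 14758490148498))
(.node (.leaf 13452169971952)
(.leaf 9531351369451))))
(.node (.node (.node (.leaf 1838549567998)
(.leaf 3667915179072))
(.node (.leaf 13130697543314)
(.leaf 8117791754750)))
(.node (.node (.leaf 16201599159954)
(.leaf 7769928239344))
(.node (.leaf 9865872279792)
(.leaf 2268561671915)))))
(.node (.node (.node (.node (.leaf 14711245508242)
(.leaf 7379057379838))
(.node (.leaf 15805783214590)
(.leaf 16480059527827)))
(.node (.node (.leaf 12618917480958)
(.leaf 5012239942720))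
(.node (.leaf 15144237664338)
(.leaf 6421159086162))))
(.node (.node (.node (.leaf 14697442053508)
(.leaf 781697156160))
(.node (.leaf 4939515955710)
(.leaf 125372991211)))
(.node (.node (.leaf 11849997748306)
(.leaf 6799236794878))
(.leaf 11137908216175)))))
(.node (.node (.node (.node (.node (.leaf 6958829538962)
(.leaf 12292260367748))
(.node (.leaf 1018889768594)
(.leaf 335277462163)))
(.node (.node (.leaf 2857135771282)
(.leaf 15394145308306))
(.node (.leaf 9595260504574)
(.leaf 11579942507174))))
(.node (.node (.node (.leaf 13508654665362)
(.leaf 10767665989714))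
(.node (.leaf 6632412024466)
(.leaf 4893025767791)))
(.node (.node (.leaf 3664589622930)
(.leaf 2482794662398))
(.node (.leaf 2113140688637)
(.leaf 12980373687954)))))
(.node (.node (.node (.node (.leaf 14084180283026)
(.leaf 1109084081810))
(.node (.leaf 933029217125)
(.leaf 14057907163509)))
(.node (.node (.leaf 6876425619538)
(.leaf 927726044224))
(.node (.leaf 11253796834962)
(.leaf 14436361309493))))
(.node (.node (.node (.leaf 3504706421824)
(.leaf 13160258998645))
(.node (.leaf 12005454906213)
(.leaf 35973209107957995016887)))
(.node (.node (.leaf 2792032307710)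
(.leaf 13332397426411))
(.leaf 12258315866485)))))))))
(.node (.node (.node (.node (.node (.node (.node (.node (.node (.leaf 16655980694265)
(.leaf 8435794973045))
(.node (.leaf 18201183077)
(.leaf 9414665833209)))
(.node (.node (.leaf 12421348985342)
(.leaf 6326790392318))
(.node (.leaf 15565059001081)
(.leaf 5450617063934))))
(.node (.node (.node (.leaf 10037642136062)
(.leaf 12722172334453))
(.node (.leaf 9771354163710)
(.leaf 15514404392594)))
(.node (.node (.leaf 12103521405438)
(.leaf 1949928260672))
(.node (.leaf 13469200418898)
(.leaf 3376663234283)))))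
(.node (.node (.node (.node (.leaf 15681908117138)
(.leaf 279476439550))
(.node (.leaf 1468976335609)
(.leaf 8044743758483)))
(.node (.node (.leaf 13353150843641)
(.leaf 5296677195410))
(.node (.leaf 7963201767664)
(.leaf 55897827409114371722628))))
(.node (.node (.node (.leaf 17240062692740)
(.leaf 14453622968687))
(.node (.leaf 9660363968146)
(.leaf 1795313108733)))
(.node (.node (.leaf 3981447791680)
(.leaf 5020829877312))
(.node (.leaf 11214176388861)
(.leaf 77788615029))))))
(.node (.node (.node (.node (.node (.leaf 2980720411712)
(.leaf 12863906255221))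
(.node (.leaf 10849390955006)
(.leaf 9822616425105)))
(.node (.node (.leaf 5673834776658)
(.leaf 7937282541650))
(.node (.leaf 11613895133694)
(.leaf 16390577720978))))
(.node (.node (.node (.leaf 2327885382720)
(.leaf 11502225983998))
(.node (.leaf 610068334674)
(.leaf 64158159840769569984146)))
(.node (.node (.leaf 10811453997925)
(.leaf 15943901122194))
(.node (.leaf 6576577449618)
(.leaf 5867873767426)))))
(.node (.node (.node (.node (.leaf 1461271400082)
(.leaf 1985012830580))
(.node (.leaf 3023960541694)
(.leaf 15964663452307)))
(.node (.node (.leaf 15105703545342)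
(.leaf 7013985159678))
(.node (.leaf 9509389994224)
(.leaf 5850224660853))))
(.node (.node (.node (.leaf 8096321114086)
(.leaf 9424140766866))
(.node (.leaf 14482642830400)
(.leaf 8847965030640)))
(.node (.node (.leaf 13696954272254)
(.leaf 13048589848949))
(.leaf 8565222805871))))))
(.node (.node (.node (.node (.node (.node (.leaf 14993743938624)
(.leaf 2302581674357))
(.node (.leaf 12794890553426)
(.leaf 1749034208914)))
(.node (.node (.leaf 5424726673490)
(.leaf 14920813906681))
(.node (.leaf 8731972078078)
(.leaf 278107412797213847882547514576181))))
(.node (.node (.node (.leaf 5222983797246)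
(.leaf 4226551384574))
(.node (.leaf 13203033033214)
(.leaf 10419607439101)))
(.node (.node (.leaf 6026860430181)
(.leaf 4033277856254))
(.node (.leaf 5210098895358)
(.leaf 9719524099136)))))
(.node (.node (.node (.node (.leaf 3307137926208)
(.leaf 14324019497470))
(.node (.leaf 2109132507646)
(.leaf 76944036807585048302227)))
(.node (.node (.leaf 14023371786750)
(.leaf 8461183093497))
(.node (.leaf 167807289854)
(.leaf 6313632337404))))
(.node (.node (.node (.leaf 15689579498884)
(.leaf 1152033754770))
(.node (.leaf 10389623409401)
(.leaf 8917373420389)))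
(.node (.node (.leaf 7280152545362)
(.leaf 3449841258130))
(.leaf 4217674663677)))))
(.node (.node (.node (.node (.node (.leaf 8521228223552)
(.leaf 15535879229074))
(.node (.leaf 3758399949310)
(.leaf 14087762743955)))
(.node (.node (.leaf 14216645315070)
(.leaf 5862962759920))
(.node (.leaf 6163461048402)
(.leaf 5111329591646))))
(.node (.node (.node (.leaf 11670408662674)
(.leaf 6348265228798))
(.node (.leaf 9544399851154)
(.leaf 12992579635710)))
(.node (.node (.leaf 12928834080402)
(.leaf 6988244191472))
(.node (.leaf 15844151133949)
(.leaf 33096976187150329449980)))))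
(.node (.node (.node (.node (.leaf 8925924560530)
(.leaf 4467824005487))
(.node (.leaf 12537022645312)
(.leaf 14792137380499)))
(.node (.node (.leaf 2693248059902)
(.leaf 11665434741246))
(.node (.leaf 11777132726512)
(.leaf 13572127067644))))
(.node (.node (.node (.leaf 15711972888210)
(.leaf 2478212908797))
(.node (.leaf 15651843346066)
(.leaf 3613050015378)))
(.node (.node (.leaf 3891543935486)
(.leaf 10531739013493))
(.leaf 9153054511477)))))))
(.node (.node (.node (.node (.node (.node (.node (.leaf 9143998481472)
(.leaf 16536103293301))
(.node (.leaf 4638868244990)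
(.leaf 10661091348114)))
(.node (.node (.leaf 12300850302340)
(.leaf 12846550747646))
(.node (.leaf 10604606654704)
(.leaf 10588042825730))))
(.node (.node (.node (.leaf 11003803732729)
(.leaf 5703780535684))
(.node (.leaf 11077703175826)
(.leaf 7580949678320)))
(.node (.node (.leaf 236526766590)
(.leaf 10256861106549))
(.node (.leaf 472749967870)
(.leaf 12820780943870)))))
(.node (.node (.node (.node (.leaf 10059116972542)
(.leaf 60394712162603138812144))
(.node (.leaf 3062615247358)
(.leaf 5094101226131)))
(.node (.node (.leaf 13885932833278)
(.leaf 3814234524158))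
(.node (.leaf 7826412932754)
(.leaf 7052349408320))))
(.node (.node (.node (.leaf 9616735341054)
(.leaf 14397033941502))
(.node (.leaf 9050517406565)
(.leaf 4905138655607)))
(.node (.node (.leaf 70744567325754963527762)
(.leaf 5648185559550))
(.node (.leaf 13181271410429)
(.leaf 15775718443518))))))
(.node (.node (.node (.node (.node (.leaf 7117743328914)
(.leaf 3303133415934))
(.node (.leaf 13834393225726)
(.leaf 9135421657745)))
(.node (.node (.leaf 16093546023422)
(.leaf 12468593625598))
(.node (.leaf 15002333873216)
(.leaf 55599790441239879619342))))
(.node (.node (.node (.leaf 14384149039614)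
(.leaf 3105278134013))
(.node (.leaf 2392479762514)
(.leaf 5690968249007)))
(.node (.node (.leaf 13138608523774)
(.leaf 9187267447024))
(.node (.leaf 2766980252517)
(.leaf 6219591848309)))))
(.node (.node (.node (.node (.leaf 6524068430912)
(.leaf 11404023435626))
(.node (.leaf 6283634674425)
(.leaf 15930303713939)))
(.node (.node (.leaf 12124996241918)
(.leaf 3878659033598))
(.node (.leaf 55192933002976847987776)
(.leaf 6708752024640))))
(.node (.node (.node (.leaf 7189872773881)
(.leaf 10677767901557))
(.node (.leaf 10857980889598)
(.leaf 743848281835)))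
(.node (.node (.leaf 7305752478784)
(.leaf 1529827297003))
(.leaf 9058565230965))))))
(.node (.node (.node (.node (.node (.node (.leaf 7722448718585)
(.leaf 7761485107573))
(.node (.leaf 11743423106706)
(.leaf 11927150400145)))
(.node (.node (.leaf 1623801203198)
(.leaf 13666889501182))
(.node (.leaf 5265643013184)
(.leaf 12545663438212))))
(.node (.node (.node (.leaf 897951730174)
(.leaf 1435501596306))
(.node (.leaf 1584940452601)
(.leaf 7765604436478)))
(.node (.node (.leaf 13559275720068)
(.leaf 5446322096638))
(.node (.leaf 16935388449008)
(.leaf 14160810740222)))))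
(.node (.node (.node (.node (.leaf 12176245392448)
(.leaf 8840064009061))
(.node (.leaf 3384737794558)
(.leaf 14676173263507)))
(.node (.node (.leaf 137536473849)
(.leaf 4630278310398))
(.node (.leaf 4944489877138)
(.leaf 13297551149296))))
(.node (.node (.node (.leaf 12244964869184)
(.leaf 4823580674288))
(.node (.leaf 5588773765989)
(.leaf 22967356069095613927814)))
(.node (.node (.leaf 15754922561170)
(.leaf 8512957581552))
(.leaf 3948132962671)))))
(.node (.node (.node (.node (.node (.leaf 2238660480658)
(.leaf 3337493154302))
(.node (.leaf 12752740421266)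
(.leaf 3354639471251)))
(.node (.node (.leaf 2748962048082)
(.leaf 8856526129662))
(.node (.leaf 2315290937854)
(.leaf 3328932055280))))
(.node (.node (.node (.leaf 13980131656768)
(.leaf 6391435366845))
(.node (.leaf 1087609245330)
(.leaf 2070357215314)))
(.node (.node (.leaf 6116130949881)
(.leaf 14654731979262))
(.node (.leaf 9732412671741)
(.leaf 5600839996066)))))
(.node (.node (.node (.node (.leaf 12812191009278)
(.leaf 16768031527285))
(.node (.leaf 15243142498814)
(.leaf 3235131687781)))
(.node (.node (.leaf 11618190100990)
(.leaf 13920292571646))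
(.node (.leaf 2727607798270)
(.leaf 2208595709586))))
(.node (.node (.node (.leaf 17364735756370)
(.leaf 3909402758802))
(.node (.leaf 8933714954322)
(.leaf 16428553472510)))
(.node (.node (.leaf 2143492246014)
(.leaf 5528605429394))
(.leaf 6404275442037))))))))
(.node (.node (.node (.node (.node (.node (.node (.node (.leaf 7985326722706)
(.leaf 7813024715125))
(.node (.leaf 5842138042002)
(.leaf 6601462254329)))
(.node (.node (.leaf 1310272786406)
(.leaf 6610975982437))
(.node (.leaf 15423531125246)
(.leaf 6498589084158))))
(.node (.node (.node (.leaf 9488565276306)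
(.leaf 3432700183397))
(.node (.leaf 64420250194264925932281)
(.leaf 16677994762647)))
(.node (.node (.leaf 8762036849150)
(.leaf 11433682145653))
(.node (.leaf 15372670471826)
(.leaf 9169781396113)))))
(.node (.node (.node (.node (.leaf 189961080466)
(.leaf 11540880689662))
(.node (.leaf 2904380411538)
(.leaf 16909556257427)))
(.node (.node (.leaf 16961129417214)
(.leaf 13422105200880))
(.node (.leaf 5609324808953)
(.leaf 11570739415801))))
(.node (.node (.node (.leaf 17026232880786)
(.leaf 2821966270842))
(.node (.leaf 3324608252414)
(.leaf 8105082491253)))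
(.node (.node (.leaf 6271634771602)
(.leaf 10570393719157))
(.node (.leaf 2972134147837)
(.leaf 6211450966624))))))
(.node (.node (.node (.node (.node (.leaf 13585964076690)
(.leaf 275357110645))
(.node (.leaf 2654302897216)
(.leaf 9955760411281)))
(.node (.node (.leaf 15526370741636)
(.leaf 12181006455157))
(.node (.leaf 3066619757632)
(.leaf 14246885724533))))
(.node (.node (.node (.leaf 8671552078912)
(.leaf 3573716355582))
(.node (.leaf 2195710807698)
(.leaf 1692638384521)))
(.node (.node (.leaf 5283792293522)
(.leaf 7894453455358))
(.node (.leaf 13838567606354)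
(.leaf 64567824146854594220718)))))
(.node (.node (.node (.node (.leaf 10029052201470)
(.leaf 13211332510784))
(.node (.leaf 6201945883712)
(.leaf 2474171175571)))
(.node (.node (.leaf 5420552292862)
(.leaf 456074727823))
(.node (.leaf 14586041338096)
(.leaf 1292815568380))))
(.node (.node (.node (.leaf 3539150572281)
(.leaf 10913525007424))
(.node (.leaf 1378867480658)
(.leaf 6666771762834)))
(.node (.node (.leaf 11631753957010)
(.leaf 2830862651765))
(.leaf 8796572225909))))))
(.node (.node (.node (.node (.node (.node (.leaf 2895790476946)
(.leaf 16033592119669))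
(.node (.leaf 15192281845394)
(.leaf 27837564458136593501339)))
(.node (.node (.leaf 1138469898750)
(.leaf 14835120605694))
(.node (.leaf 13705573042416)
(.leaf 3165789098669))))
(.node (.node (.node (.leaf 14706950540946)
(.leaf 6129424011621))
(.node (.leaf 12034801928702)
(.leaf 4132237742453)))
(.node (.node (.leaf 16785035758078)
(.leaf 5236547653266))
(.node (.leaf 12275320097278)
(.leaf 1322947447545)))))
(.node (.node (.node (.node (.leaf 8650367699454)
(.leaf 9887997234834))
(.node (.leaf 2233686559230)
(.leaf 15045540450963)))
(.node (.node (.leaf 5738379872766)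
(.leaf 7121388177648))
(.node (.leaf 12190099705490)
(.leaf 17876198810503846564622))))
(.node (.node (.node (.leaf 108356701842)
(.leaf 2358958359397))
(.node (.leaf 799046895698)
(.leaf 40915262307895534947986)))
(.node (.node (.leaf 3723749753920)
(.leaf 7719038750354))
(.leaf 8273165029743)))))
(.node (.node (.node (.node (.node (.leaf 8577062798400)
(.leaf 7632528347497))
(.node (.leaf 13233776758418)
(.leaf 11901624390291)))
(.node (.node (.leaf 9625325275646)
(.leaf 11686788991058))
(.node (.leaf 16966103338642)
(.leaf 40567143064310688254462))))
(.node (.node (.node (.leaf 8011096526482)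
(.leaf 15869920937725))
(.node (.leaf 5794932196197)
(.leaf 11025513449712)))
(.node (.node (.leaf 8505056559973)
(.leaf 12756532072821))
(.node (.leaf 1035103897341)
(.leaf 8573573662443)))))
(.node (.node (.node (.node (.leaf 5747648761490)
(.leaf 6150406276160))
(.node (.leaf 2645797374713)
(.leaf 9930296789232)))
(.node (.node (.leaf 3753814524992)
(.leaf 12705332201195))
(.node (.leaf 13400601528830)
(.leaf 9308126581478))))
(.node (.node (.node (.leaf 16900999875070)
(.leaf 5575850069650))
(.node (.leaf 11451365330578)
(.leaf 3681769492114)))
(.node (.node (.leaf 1103904115449)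
(.leaf 7366051891282))
(.leaf 6760757727605)))))))
(.node (.node (.node (.node (.node (.node (.node (.leaf 6008672355392)
(.leaf 15724354474357))
(.node (.leaf 7481930550009)
(.leaf 15006672621956)))
(.node (.node (.leaf 993119964818)
(.leaf 8882295933438))
(.node (.leaf 3900133870078)
(.leaf 14349690475171))))
(.node (.node (.node (.leaf 11961787484670)
(.leaf 15801488247294))
(.node (.leaf 5248547556089)
(.leaf 15428543841125)))
(.node (.node (.leaf 14156515772926)
(.leaf 10548743244286))
(.node (.leaf 13427050286738)
(.leaf 6073147723140)))))
(.node (.node (.node (.node (.leaf 10544448276990)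
(.leaf 13903867154799))
(.node (.leaf 4489223343762)
(.leaf 9255924535955)))
(.node (.node (.leaf 8744856979966)
(.leaf 275146125144723154954347283633917344199392463673445946988657908841339667124851097))
(.node (.leaf 1336038394366)
(.leaf 970845587538))))
(.node (.node (.node (.leaf 9110608154258)
(.leaf 14504117666880))
(.node (.leaf 1997342771282)
(.leaf 15011893218962)))
(.node (.node (.leaf 718242057874)
(.leaf 6146626949579))
(.node (.leaf 6408107984637)
(.leaf 3547792675484))))))
(.node (.node (.node (.node (.node (.leaf 14599576358546)
(.leaf 5278527915072))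
(.node (.leaf 3509970800274)
(.leaf 14886626661011)))
(.node (.node (.leaf 15518020405758)
(.leaf 2774561981504))
(.node (.leaf 4729091393776)
(.leaf 846291535954))))
(.node (.node (.node (.leaf 11772602878713)
(.leaf 4608513016896))
(.node (.leaf 4415323900665)
(.leaf 4497813278354)))
(.node (.node (.leaf 18727831744584763312210)
(.leaf 12528723167742))
(.node (.leaf 16867319090834)
(.leaf 1739474863168)))))
(.node (.node (.node (.node (.leaf 10021141221010)
(.leaf 11806881875709))
(.node (.leaf 4867180465810)
(.leaf 9925939434131)))
(.node (.node (.leaf 7572124863225)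
(.leaf 16179445369342))
(.node (.leaf 13611733880466)
(.leaf 16446406004021))))
(.node (.node (.node (.leaf 6769172023806)
(.leaf 13851286308605))
(.node (.leaf 3316697271954)
(.leaf 13207041214205)))
(.node (.node (.leaf 6382418922233)
(.leaf 10518707308784))
(.leaf 447155802485))))))
(.node (.node (.node (.node (.node (.node (.leaf 18207355247582218555026)
(.leaf 12477359198581))
(.node (.leaf 14100681198078)
(.leaf 14379576726161)))
(.node (.node (.leaf 8890765281362)
(.leaf 10883460236352))
(.node (.leaf 1271642720496)
(.leaf 17045951221435176063374))))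
(.node (.node (.node (.leaf 4677522950654)
(.leaf 2469622974205))
(.node (.leaf 11390556834302)
(.leaf 11394880637168)))
(.node (.node (.leaf 494104217682)
(.leaf 6305931858316))
(.node (.leaf 1508516040338)
(.leaf 5047405512427)))))
(.node (.node (.node (.node (.leaf 12386783202041)
(.leaf 172131092720))
(.node (.leaf 7740513586834)
(.leaf 6627404550803)))
(.node (.node (.leaf 16342654126590)
(.leaf 12439207808658))
(.node (.leaf 1306652577426)
(.leaf 8148535479954))))
(.node (.node (.node (.leaf 4329630599678)
(.leaf 14173405185088))
(.node (.leaf 383234608786)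
(.leaf 12451123299392)))
(.node (.node (.leaf 15904567462398)
(.leaf 11747554494187))
(.leaf 6512228438383)))))
(.node (.node (.node (.node (.node (.leaf 14930288840338)
(.leaf 1856408391314))
(.node (.leaf 7048344898046)
(.leaf 9316054078099)))
(.node (.node (.leaf 2565077995154)
(.leaf 12074135588498))
(.node (.leaf 1696576048516)
(.leaf 3677474524818))))
(.node (.node (.node (.leaf 15136447270546)
(.leaf 12700235073277))
(.node (.leaf 13099953818110)
(.leaf 15401769502461)))
(.node (.node (.leaf 6485413725248)
(.leaf 6829477204341))
(.node (.leaf 12799019321085)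
(.leaf 54383754375519142414846)))))
(.node (.node (.node (.node (.leaf 9995371417234)
(.leaf 16454202689618))
(.node (.leaf 16144879586041)
(.leaf 2847866882558)))
(.node (.node (.leaf 9406960897682)
(.leaf 2431836754282))
(.node (.leaf 14233825184254)
(.leaf 16334030639763))))
(.node (.node (.node (.leaf 11459070266105)
(.leaf 331695001234))
(.node (.leaf 1851228424953)
(.leaf 8894941236612)))
(.node (.node (.leaf 9217012925504)
(.leaf 9071153907794))
(.leaf 5949008908661))))))))))

theorem t0 : chk (Tr.get 0 g) (fun i => Tr.get 0 h0 (Nat.sub i 3972)) 500 3972 = true := by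
  decide +kernel

theorem t1 : chk (Tr.get 0 g) (fun i => Tr.get 0 h0 (Nat.sub i 3972)) 500 4472 = true := by
  decide +kernel

end Pool.Agent.Gab7_h87.CB
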