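import Pool.Agent.Gab7_h87.CB.A0
import Pool.Agent.Gab7_h87.CB.A1
import Pool.Agent.Gab7_h87.CB.A2
import Pool.Agent.Gab7_h87.CB.A3
import Pool.Agent.Gab7_h87.CB.T0
import Pool.Agent.Gab7_h87.CB.T1
import Pool.Agent.Gab7_h87.CB.T2

/-! Certificate; see `Pool/Agent/Gab7_h87/Ax.lean`. -/

set_option autoImplicit false
set_option maxRecDepth 100000

namespace Pool.Agent.Gab7_h87.CB

open Pool.Agent.Gab7_h87.Sat

theorem z : Tr.get 0 g 6824 = 0 := by decide +kernel

/-- The problem with these parameters has no solution. -/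
theorem bad {α : Type*} [DecidableEq α] (c : Cx α)
    (hp : c.toPar = ⟨7, 127, 51, [(3, 2), (4, 1), (5, 0), (3, 3), (4, 2), (5, 1), (6, 0)], [], []⟩) : False := by
  have s0 := axchk_sound c hp _ _ _ _ _ a0
  have s0 := s0.trans (axchk_sound c hp _ _ _ _ _ a1)
  have s0 := s0.trans (axchk_sound c hp _ _ _ _ _ a2)
  have s0 := s0.trans (axchk_sound c hp _ _ _ _ _ a3)
  have s0 := chk_sound' t0 (e := 4472) rfl s0
  have s0 := chk_sound' t1 (e := 4972) rfl s0
  have s0 := chk_sound' t2 (e := 5472) rfl s0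
  have s0 := chk_sound' t3 (e := 5972) rfl s0
  have s0 := chk_sound' t4 (e := 6472) rfl s0
  have s0 := chk_sound' t5 (e := 6825) rfl s0
  exact s0.false z

end Pool.Agent.Gab7_h87.CB
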