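import Pool.Agent.Gab7_h87.CB.Dg_0
import Pool.Agent.Gab7_h87.CB.Dg_1

/-! Certificate; see `Pool/Agent/Gab7_h87/Ax.lean`. -/

set_option autoImplicit false
set_option maxRecDepth 100000

namespace Pool.Agent.Gab7_h87.CB

open Pool.Agent.Gab7_h87.Sat

/-- the clauses -/
def g : Tr Nat := (.node g_0 g_1)

end Pool.Agent.Gab7_h87.CB
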