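import Pool.Agent.Gab7_h87.Ax

/-! Certificate; see `Pool/Agent/Gab7_h87/Ax.lean`. -/

set_option autoImplicit false
set_option maxRecDepth 100000

namespace Pool.Agent.Gab7_h87.CB

open Pool.Agent.Gab7_h87.Sat

/-- the variables -/
def v : Tr VC := (.node (.node (.node (.node (.node (.node (.node (.node (.node (.node (.node (.node (.leaf ⟨0, 11303, 0, 0⟩)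
(.leaf ⟨2, 12829, 0, 0⟩))
(.leaf ⟨1, 5, 6, 0⟩))
(.node (.leaf ⟨1, 3, 10, 0⟩)
(.leaf ⟨1, 4, 16, 0⟩)))
(.node (.node (.leaf ⟨1, 66, 40, 0⟩)
(.leaf ⟨0, 8975, 0, 0⟩))
(.node (.leaf ⟨0, 5816, 0, 0⟩)
(.leaf ⟨1, 96, 6, 0⟩))))
(.node (.node (.node (.leaf ⟨1, 8, 2, 0⟩)
(.leaf ⟨2, 1509, 0, 0⟩))
(.node (.leaf ⟨0, 6112, 0, 0⟩)
(.leaf ⟨1, 112, 21, 0⟩)))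
(.node (.node (.leaf ⟨0, 15386, 0, 0⟩)
(.leaf ⟨0, 15621, 0, 0⟩))
(.node (.leaf ⟨1, 44, 50, 0⟩)
(.leaf ⟨0, 1214, 0, 0⟩)))))
(.node (.node (.node (.node (.leaf ⟨0, 13256, 0, 0⟩)
(.leaf ⟨0, 505, 0, 0⟩))
(.node (.leaf ⟨0, 1524, 0, 0⟩)
(.leaf ⟨0, 11744, 0, 0⟩)))
(.node (.node (.leaf ⟨0, 3824, 0, 0⟩)
(.leaf ⟨0, 15048, 0, 0⟩))
(.node (.leaf ⟨0, 9495, 0, 0⟩)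
(.leaf ⟨2, 239, 0, 0⟩))))
(.node (.node (.node (.leaf ⟨2, 15681, 0, 0⟩)
(.leaf ⟨0, 3048, 0, 0⟩))
(.node (.leaf ⟨1, 70, 49, 0⟩)
(.leaf ⟨0, 6096, 0, 0⟩)))
(.node (.node (.leaf ⟨1, 87, 115, 0⟩)
(.leaf ⟨0, 1269, 0, 0⟩))
(.node (.leaf ⟨0, 11797, 0, 0⟩)
(.leaf ⟨0, 7620, 0, 0⟩))))))
(.node (.node (.node (.node (.node (.leaf ⟨1, 0, 0, 0⟩)
(.leaf ⟨0, 2143, 0, 0⟩))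
(.node (.leaf ⟨0, 3463, 0, 0⟩)
(.leaf ⟨1, 7, 70, 0⟩)))
(.node (.node (.leaf ⟨0, 8287, 0, 0⟩)
(.leaf ⟨1, 64, 16, 0⟩))
(.node (.leaf ⟨2, 10887, 0, 0⟩)
(.leaf ⟨2, 10631, 0, 0⟩))))
(.node (.node (.node (.leaf ⟨0, 13395, 0, 0⟩)
(.leaf ⟨1, 7, 7, 0⟩))
(.node (.leaf ⟨0, 13575, 0, 0⟩)
(.leaf ⟨1, 18, 20, 0⟩)))
(.node (.node (.leaf ⟨0, 14240, 0, 0⟩)
(.leaf ⟨0, 7874, 0, 0⟩))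
(.node (.leaf ⟨1, 24, 20, 0⟩)
(.leaf ⟨1, 42, 21, 0⟩)))))
(.node (.node (.node (.node (.leaf ⟨0, 3165, 0, 0⟩)
(.leaf ⟨1, 24, 17, 0⟩))
(.node (.leaf ⟨1, 13, 7, 0⟩)
(.leaf ⟨1, 28, 42, 0⟩)))
(.node (.node (.leaf ⟨1, 20, 20, 0⟩)
(.leaf ⟨1, 20, 5, 0⟩))
(.node (.leaf ⟨0, 734, 0, 0⟩)
(.leaf ⟨1, 22, 13, 0⟩))))
(.node (.node (.node (.leaf ⟨1, 7, 41, 0⟩)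
(.leaf ⟨0, 13063, 0, 0⟩))
(.node (.leaf ⟨2, 13845, 0, 0⟩)
(.leaf ⟨2, 9247, 0, 0⟩)))
(.node (.node (.leaf ⟨0, 1623, 0, 0⟩)
(.leaf ⟨1, 83, 23, 0⟩))
(.node (.leaf ⟨1, 10, 72, 0⟩)
(.leaf ⟨1, 14, 7, 0⟩)))))))
(.node (.node (.node (.node (.node (.node (.leaf ⟨0, 13264, 0, 0⟩)
(.leaf ⟨0, 2174, 0, 0⟩))
(.node (.leaf ⟨0, 5167, 0, 0⟩)
(.leaf ⟨1, 68, 24, 0⟩)))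
(.node (.node (.leaf ⟨1, 17, 10, 0⟩)
(.leaf ⟨0, 2794, 0, 0⟩))
(.node (.leaf ⟨1, 68, 6, 0⟩)
(.leaf ⟨0, 13762, 0, 0⟩))))
(.node (.node (.node (.leaf ⟨0, 15497, 0, 0⟩)
(.leaf ⟨1, 21, 84, 0⟩))
(.node (.leaf ⟨0, 7108, 0, 0⟩)
(.leaf ⟨0, 12049, 0, 0⟩)))
(.node (.node (.leaf ⟨0, 9338, 0, 0⟩)
(.leaf ⟨0, 8940, 0, 0⟩))
(.node (.leaf ⟨0, 635, 0, 0⟩)
(.leaf ⟨0, 10319, 0, 0⟩)))))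
(.node (.node (.node (.node (.leaf ⟨0, 15433, 0, 0⟩)
(.leaf ⟨1, 37, 50, 0⟩))
(.node (.leaf ⟨1, 97, 21, 0⟩)
(.leaf ⟨1, 33, 34, 0⟩)))
(.node (.node (.leaf ⟨0, 607, 0, 0⟩)
(.leaf ⟨1, 9, 34, 0⟩))
(.node (.leaf ⟨0, 1724, 0, 0⟩)
(.leaf ⟨0, 15878, 0, 0⟩))))
(.node (.node (.node (.leaf ⟨1, 18, 48, 0⟩)
(.leaf ⟨1, 7, 69, 0⟩))
(.node (.leaf ⟨0, 2283, 0, 0⟩)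
(.leaf ⟨0, 14090, 0, 0⟩)))
(.node (.node (.leaf ⟨0, 2804, 0, 0⟩)
(.leaf ⟨1, 21, 25, 0⟩))
(.node (.leaf ⟨0, 191, 0, 0⟩)
(.leaf ⟨1, 25, 11, 0⟩))))))
(.node (.node (.node (.node (.node (.leaf ⟨1, 18, 6, 0⟩)
(.leaf ⟨1, 112, 7, 0⟩))
(.node (.leaf ⟨0, 14725, 0, 0⟩)
(.leaf ⟨0, 16002, 0, 0⟩)))
(.node (.node (.leaf ⟨1, 6, 33, 0⟩)
(.leaf ⟨2, 12823, 0, 0⟩))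
(.node (.leaf ⟨0, 4399, 0, 0⟩)
(.leaf ⟨1, 5, 9, 0⟩))))
(.node (.node (.node (.leaf ⟨0, 9323, 0, 0⟩)
(.leaf ⟨0, 3940, 0, 0⟩))
(.node (.leaf ⟨1, 6, 17, 0⟩)
(.leaf ⟨1, 112, 112, 0⟩)))
(.node (.node (.leaf ⟨0, 8442, 0, 0⟩)
(.leaf ⟨0, 3190, 0, 0⟩))
(.node (.leaf ⟨0, 491, 0, 0⟩)
(.leaf ⟨0, 13776, 0, 0⟩)))))
(.node (.node (.node (.node (.leaf ⟨1, 66, 10, 0⟩)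
(.leaf ⟨0, 7106, 0, 0⟩))
(.node (.leaf ⟨0, 15560, 0, 0⟩)
(.leaf ⟨0, 2988, 0, 0⟩)))
(.node (.node (.leaf ⟨0, 6235, 0, 0⟩)
(.leaf ⟨0, 247, 0, 0⟩))
(.node (.leaf ⟨0, 493, 0, 0⟩)
(.leaf ⟨0, 12685, 0, 0⟩))))
(.node (.node (.node (.leaf ⟨1, 70, 42, 0⟩)
(.leaf ⟨0, 3986, 0, 0⟩))
(.node (.leaf ⟨0, 13962, 0, 0⟩)
(.leaf ⟨1, 6, 80, 0⟩)))
(.node (.node (.leaf ⟨0, 5782, 0, 0⟩)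
(.leaf ⟨0, 2286, 0, 0⟩))
(.node (.leaf ⟨1, 11, 13, 0⟩)
(.leaf ⟨1, 41, 49, 0⟩))))))))
(.node (.node (.node (.node (.node (.node (.node (.leaf ⟨1, 38, 49, 0⟩)
(.leaf ⟨0, 2017, 0, 0⟩))
(.node (.leaf ⟨0, 8367, 0, 0⟩)
(.leaf ⟨0, 4036, 0, 0⟩)))
(.node (.node (.leaf ⟨1, 112, 76, 0⟩)
(.leaf ⟨0, 12347, 0, 0⟩))
(.node (.leaf ⟨0, 6934, 0, 0⟩)
(.leaf ⟨0, 2024, 0, 0⟩))))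
(.node (.node (.node (.leaf ⟨1, 20, 34, 0⟩)
(.leaf ⟨2, 12037, 0, 0⟩))
(.node (.leaf ⟨0, 687, 0, 0⟩)
(.leaf ⟨0, 14985, 0, 0⟩)))
(.node (.node (.leaf ⟨1, 18, 33, 0⟩)
(.leaf ⟨1, 68, 80, 0⟩))
(.node (.leaf ⟨1, 98, 100, 0⟩)
(.leaf ⟨0, 12573, 0, 0⟩)))))
(.node (.node (.node (.node (.leaf ⟨0, 2790, 0, 0⟩)
(.leaf ⟨2, 7183, 0, 0⟩))
(.node (.leaf ⟨1, 80, 65, 0⟩)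
(.leaf ⟨0, 12823, 0, 0⟩)))
(.node (.node (.leaf ⟨0, 3952, 0, 0⟩)
(.leaf ⟨2, 5767, 0, 0⟩))
(.node (.leaf ⟨2, 10299, 0, 0⟩)
(.leaf ⟨0, 7632, 0, 0⟩))))
(.node (.node (.node (.leaf ⟨1, 25, 13, 0⟩)
(.leaf ⟨1, 9, 24, 0⟩))
(.node (.leaf ⟨1, 80, 80, 0⟩)
(.leaf ⟨0, 15937, 0, 0⟩)))
(.node (.node (.leaf ⟨0, 10728, 0, 0⟩)
(.leaf ⟨0, 1778, 0, 0⟩))
(.node (.leaf ⟨1, 22, 52, 0⟩)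
(.leaf ⟨1, 21, 97, 0⟩))))))
(.node (.node (.node (.node (.node (.leaf ⟨1, 28, 50, 0⟩)
(.leaf ⟨0, 1627, 0, 0⟩))
(.node (.leaf ⟨1, 68, 65, 0⟩)
(.leaf ⟨1, 24, 10, 0⟩)))
(.node (.node (.leaf ⟨1, 3, 24, 0⟩)
(.leaf ⟨0, 9863, 0, 0⟩))
(.node (.leaf ⟨1, 23, 51, 0⟩)
(.leaf ⟨1, 17, 80, 0⟩))))
(.node (.node (.node (.leaf ⟨0, 14413, 0, 0⟩)
(.leaf ⟨0, 5199, 0, 0⟩))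
(.node (.leaf ⟨1, 100, 21, 0⟩)
(.leaf ⟨0, 1246, 0, 0⟩)))
(.node (.node (.leaf ⟨0, 10803, 0, 0⟩)
(.leaf ⟨0, 9867, 0, 0⟩))
(.node (.leaf ⟨0, 9277, 0, 0⟩)
(.leaf ⟨0, 7813, 0, 0⟩)))))
(.node (.node (.node (.node (.leaf ⟨0, 1395, 0, 0⟩)
(.leaf ⟨0, 15633, 0, 0⟩))
(.node (.leaf ⟨0, 15619, 0, 0⟩)
(.leaf ⟨2, 7687, 0, 0⟩)))
(.node (.node (.leaf ⟨1, 18, 3, 0⟩)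
(.leaf ⟨0, 13850, 0, 0⟩))
(.node (.leaf ⟨0, 3974, 0, 0⟩)
(.leaf ⟨0, 5207, 0, 0⟩))))
(.node (.node (.node (.leaf ⟨2, 9271, 0, 0⟩)
(.leaf ⟨0, 8016, 0, 0⟩))
(.node (.leaf ⟨1, 69, 13, 0⟩)
(.leaf ⟨0, 13835, 0, 0⟩)))
(.node (.node (.leaf ⟨2, 6175, 0, 0⟩)
(.leaf ⟨0, 5602, 0, 0⟩))
(.node (.leaf ⟨0, 11411, 0, 0⟩)
(.leaf ⟨1, 64, 32, 0⟩)))))))
(.node (.node (.node (.node (.node (.node (.leaf ⟨1, 73, 21, 0⟩)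
(.leaf ⟨0, 12403, 0, 0⟩))
(.node (.leaf ⟨0, 10208, 0, 0⟩)
(.leaf ⟨0, 7052, 0, 0⟩)))
(.node (.node (.leaf ⟨0, 3181, 0, 0⟩)
(.leaf ⟨0, 9275, 0, 0⟩))
(.node (.leaf ⟨1, 48, 72, 0⟩)
(.leaf ⟨1, 48, 17, 0⟩))))
(.node (.node (.node (.leaf ⟨1, 73, 11, 0⟩)
(.leaf ⟨1, 80, 3, 0⟩))
(.node (.leaf ⟨1, 33, 20, 0⟩)
(.leaf ⟨1, 79, 31, 0⟩)))
(.node (.node (.leaf ⟨1, 36, 33, 0⟩)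
(.leaf ⟨2, 13189, 0, 0⟩))
(.node (.leaf ⟨0, 13764, 0, 0⟩)
(.leaf ⟨1, 74, 49, 0⟩)))))
(.node (.node (.node (.node (.leaf ⟨1, 19, 49, 0⟩)
(.leaf ⟨1, 31, 87, 0⟩))
(.node (.leaf ⟨1, 104, 112, 0⟩)
(.leaf ⟨1, 68, 12, 0⟩)))
(.node (.node (.leaf ⟨2, 5895, 0, 0⟩)
(.leaf ⟨0, 7307, 0, 0⟩))
(.node (.leaf ⟨2, 2167, 0, 0⟩)
(.leaf ⟨0, 7569, 0, 0⟩))))
(.node (.node (.node (.leaf ⟨2, 15625, 0, 0⟩)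
(.leaf ⟨0, 671, 0, 0⟩))
(.node (.leaf ⟨1, 22, 56, 0⟩)
(.leaf ⟨0, 956, 0, 0⟩)))
(.node (.node (.leaf ⟨0, 10271, 0, 0⟩)
(.leaf ⟨0, 251, 0, 0⟩))
(.node (.leaf ⟨0, 1387, 0, 0⟩)
(.leaf ⟨1, 8, 32, 0⟩))))))
(.node (.node (.node (.node (.node (.leaf ⟨1, 16, 8, 0⟩)
(.leaf ⟨1, 88, 112, 0⟩))
(.node (.leaf ⟨0, 12162, 0, 0⟩)
(.leaf ⟨1, 48, 5, 0⟩)))
(.node (.node (.leaf ⟨0, 14116, 0, 0⟩)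
(.leaf ⟨0, 9319, 0, 0⟩))
(.node (.leaf ⟨0, 2802, 0, 0⟩)
(.leaf ⟨0, 12683, 0, 0⟩))))
(.node (.node (.node (.leaf ⟨1, 18, 18, 0⟩)
(.leaf ⟨0, 9278, 0, 0⟩))
(.node (.leaf ⟨0, 8080, 0, 0⟩)
(.leaf ⟨0, 1507, 0, 0⟩)))
(.node (.node (.leaf ⟨1, 22, 88, 0⟩)
(.leaf ⟨0, 14128, 0, 0⟩))
(.node (.leaf ⟨0, 13187, 0, 0⟩)
(.leaf ⟨1, 33, 48, 0⟩)))))
(.node (.node (.node (.node (.leaf ⟨0, 2395, 0, 0⟩)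
(.leaf ⟨0, 1784, 0, 0⟩))
(.node (.leaf ⟨0, 15889, 0, 0⟩)
(.leaf ⟨0, 1521, 0, 0⟩)))
(.node (.node (.leaf ⟨1, 17, 96, 0⟩)
(.leaf ⟨0, 5182, 0, 0⟩))
(.node (.leaf ⟨0, 9200, 0, 0⟩)
(.leaf ⟨1, 13, 21, 0⟩))))
(.node (.node (.node (.leaf ⟨1, 52, 50, 0⟩)
(.leaf ⟨1, 76, 42, 0⟩))
(.node (.leaf ⟨2, 9751, 0, 0⟩)
(.leaf ⟨0, 7942, 0, 0⟩)))
(.node (.node (.leaf ⟨1, 76, 104, 0⟩)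
(.leaf ⟨1, 96, 80, 0⟩))
(.node (.leaf ⟨2, 1119, 0, 0⟩)
(.leaf ⟨0, 1087, 0, 0⟩)))))))))
(.node (.node (.node (.node (.node (.node (.node (.node (.node (.leaf ⟨1, 3, 17, 0⟩)
(.leaf ⟨0, 15042, 0, 0⟩))
(.leaf ⟨1, 49, 50, 0⟩))
(.node (.leaf ⟨0, 14921, 0, 0⟩)
(.leaf ⟨0, 3992, 0, 0⟩)))
(.node (.node (.leaf ⟨1, 104, 76, 0⟩)
(.leaf ⟨0, 12343, 0, 0⟩))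
(.node (.leaf ⟨0, 13189, 0, 0⟩)
(.leaf ⟨0, 13224, 0, 0⟩))))
(.node (.node (.node (.leaf ⟨1, 10, 10, 0⟩)
(.leaf ⟨0, 3788, 0, 0⟩))
(.node (.leaf ⟨0, 2682, 0, 0⟩)
(.leaf ⟨0, 5895, 0, 0⟩)))
(.node (.node (.leaf ⟨0, 13593, 0, 0⟩)
(.leaf ⟨0, 3607, 0, 0⟩))
(.node (.leaf ⟨1, 67, 19, 0⟩)
(.leaf ⟨1, 98, 21, 0⟩)))))
(.node (.node (.node (.node (.leaf ⟨0, 3032, 0, 0⟩)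
(.leaf ⟨0, 14272, 0, 0⟩))
(.node (.leaf ⟨0, 5910, 0, 0⟩)
(.leaf ⟨2, 8507, 0, 0⟩)))
(.node (.node (.leaf ⟨1, 21, 74, 0⟩)
(.leaf ⟨1, 20, 66, 0⟩))
(.node (.leaf ⟨2, 12347, 0, 0⟩)
(.leaf ⟨0, 13637, 0, 0⟩))))
(.node (.node (.node (.leaf ⟨0, 11668, 0, 0⟩)
(.leaf ⟨1, 5, 5, 0⟩))
(.node (.leaf ⟨1, 121, 121, 0⟩)
(.leaf ⟨0, 9303, 0, 0⟩)))
(.node (.node (.leaf ⟨1, 100, 84, 0⟩)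
(.leaf ⟨2, 12815, 0, 0⟩))
(.node (.leaf ⟨1, 55, 91, 0⟩)
(.leaf ⟨0, 13837, 0, 0⟩))))))
(.node (.node (.node (.node (.node (.leaf ⟨1, 7, 37, 0⟩)
(.leaf ⟨0, 15493, 0, 0⟩))
(.node (.leaf ⟨0, 13986, 0, 0⟩)
(.leaf ⟨1, 24, 18, 0⟩)))
(.node (.node (.leaf ⟨1, 6, 5, 0⟩)
(.leaf ⟨1, 6, 24, 0⟩))
(.node (.leaf ⟨0, 911, 0, 0⟩)
(.leaf ⟨2, 14985, 0, 0⟩))))
(.node (.node (.node (.leaf ⟨0, 494, 0, 0⟩)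
(.leaf ⟨1, 40, 5, 0⟩))
(.node (.leaf ⟨0, 637, 0, 0⟩)
(.leaf ⟨1, 21, 52, 0⟩)))
(.node (.node (.leaf ⟨2, 14859, 0, 0⟩)
(.leaf ⟨0, 13454, 0, 0⟩))
(.node (.leaf ⟨2, 3041, 0, 0⟩)
(.leaf ⟨1, 112, 69, 0⟩)))))
(.node (.node (.node (.node (.leaf ⟨2, 15649, 0, 0⟩)
(.leaf ⟨0, 14209, 0, 0⟩))
(.node (.leaf ⟨0, 9499, 0, 0⟩)
(.leaf ⟨0, 15024, 0, 0⟩)))
(.node (.node (.leaf ⟨1, 55, 115, 0⟩)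
(.leaf ⟨1, 3, 48, 0⟩))
(.node (.leaf ⟨1, 98, 74, 0⟩)
(.leaf ⟨0, 13957, 0, 0⟩))))
(.node (.node (.node (.leaf ⟨0, 13838, 0, 0⟩)
(.leaf ⟨1, 27, 75, 0⟩))
(.node (.leaf ⟨1, 112, 81, 0⟩)
(.leaf ⟨0, 7572, 0, 0⟩)))
(.node (.node (.leaf ⟨1, 6, 18, 0⟩)
(.leaf ⟨1, 22, 74, 0⟩))
(.node (.leaf ⟨1, 64, 8, 0⟩)
(.leaf ⟨1, 98, 50, 0⟩)))))))
(.node (.node (.node (.node (.node (.node (.leaf ⟨1, 7, 11, 0⟩)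
(.leaf ⟨1, 48, 96, 0⟩))
(.node (.leaf ⟨0, 14869, 0, 0⟩)
(.leaf ⟨2, 14915, 0, 0⟩)))
(.node (.node (.leaf ⟨0, 6265, 0, 0⟩)
(.leaf ⟨0, 2207, 0, 0⟩))
(.node (.leaf ⟨0, 443, 0, 0⟩)
(.leaf ⟨1, 31, 91, 0⟩))))
(.node (.node (.node (.leaf ⟨0, 13202, 0, 0⟩)
(.leaf ⟨0, 14435, 0, 0⟩))
(.node (.leaf ⟨0, 1468, 0, 0⟩)
(.leaf ⟨0, 5901, 0, 0⟩)))
(.node (.node (.leaf ⟨0, 10117, 0, 0⟩)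
(.leaf ⟨2, 11015, 0, 0⟩))
(.node (.leaf ⟨0, 7825, 0, 0⟩)
(.leaf ⟨0, 14379, 0, 0⟩)))))
(.node (.node (.node (.node (.leaf ⟨0, 4219, 0, 0⟩)
(.leaf ⟨1, 7, 100, 0⟩))
(.node (.leaf ⟨0, 5368, 0, 0⟩)
(.leaf ⟨0, 12050, 0, 0⟩)))
(.node (.node (.leaf ⟨0, 3944, 0, 0⟩)
(.leaf ⟨1, 118, 103, 0⟩))
(.node (.leaf ⟨1, 41, 42, 0⟩)
(.leaf ⟨0, 8591, 0, 0⟩))))
(.node (.node (.node (.leaf ⟨0, 1149, 0, 0⟩)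
(.leaf ⟨0, 1274, 0, 0⟩))
(.node (.leaf ⟨1, 25, 21, 0⟩)
(.leaf ⟨0, 11176, 0, 0⟩)))
(.node (.node (.leaf ⟨0, 5580, 0, 0⟩)
(.leaf ⟨0, 13609, 0, 0⟩))
(.node (.leaf ⟨0, 15109, 0, 0⟩)
(.leaf ⟨0, 15379, 0, 0⟩))))))
(.node (.node (.node (.node (.node (.leaf ⟨1, 80, 10, 0⟩)
(.leaf ⟨1, 80, 40, 0⟩))
(.node (.leaf ⟨0, 2966, 0, 0⟩)
(.leaf ⟨0, 13075, 0, 0⟩)))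
(.node (.node (.leaf ⟨0, 3215, 0, 0⟩)
(.leaf ⟨2, 12571, 0, 0⟩))
(.node (.leaf ⟨0, 5391, 0, 0⟩)
(.leaf ⟨0, 14478, 0, 0⟩))))
(.node (.node (.node (.leaf ⟨0, 4413, 0, 0⟩)
(.leaf ⟨1, 22, 100, 0⟩))
(.node (.leaf ⟨0, 13067, 0, 0⟩)
(.leaf ⟨0, 7691, 0, 0⟩)))
(.node (.node (.leaf ⟨1, 42, 50, 0⟩)
(.leaf ⟨1, 10, 40, 0⟩))
(.node (.leaf ⟨0, 15498, 0, 0⟩)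
(.leaf ⟨1, 88, 84, 0⟩)))))
(.node (.node (.node (.node (.leaf ⟨1, 72, 68, 0⟩)
(.leaf ⟨1, 3, 72, 0⟩))
(.node (.leaf ⟨0, 995, 0, 0⟩)
(.leaf ⟨0, 13641, 0, 0⟩)))
(.node (.node (.leaf ⟨1, 66, 72, 0⟩)
(.leaf ⟨1, 34, 24, 0⟩))
(.node (.leaf ⟨0, 2263, 0, 0⟩)
(.leaf ⟨0, 3816, 0, 0⟩))))
(.node (.node (.node (.leaf ⟨1, 12, 18, 0⟩)
(.leaf ⟨1, 36, 72, 0⟩))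
(.node (.leaf ⟨1, 1, 8, 0⟩)
(.leaf ⟨0, 12443, 0, 0⟩)))
(.node (.node (.leaf ⟨0, 11531, 0, 0⟩)
(.leaf ⟨0, 3623, 0, 0⟩))
(.node (.leaf ⟨1, 69, 49, 0⟩)
(.leaf ⟨0, 13581, 0, 0⟩))))))))
(.node (.node (.node (.node (.node (.node (.node (.leaf ⟨0, 12164, 0, 0⟩)
(.leaf ⟨0, 10301, 0, 0⟩))
(.node (.leaf ⟨1, 107, 110, 0⟩)
(.leaf ⟨0, 12571, 0, 0⟩)))
(.node (.node (.leaf ⟨1, 18, 66, 0⟩)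
(.leaf ⟨0, 6453, 0, 0⟩))
(.node (.leaf ⟨0, 7183, 0, 0⟩)
(.leaf ⟨1, 77, 15, 0⟩))))
(.node (.node (.node (.leaf ⟨1, 20, 36, 0⟩)
(.leaf ⟨1, 7, 42, 0⟩))
(.node (.leaf ⟨0, 8381, 0, 0⟩)
(.leaf ⟨1, 22, 76, 0⟩)))
(.node (.node (.leaf ⟨2, 9277, 0, 0⟩)
(.leaf ⟨2, 9263, 0, 0⟩))
(.node (.leaf ⟨2, 3553, 0, 0⟩)
(.leaf ⟨0, 1367, 0, 0⟩)))))
(.node (.node (.node (.node (.leaf ⟨0, 9751, 0, 0⟩)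
(.leaf ⟨0, 14861, 0, 0⟩))
(.node (.leaf ⟨0, 14979, 0, 0⟩)
(.leaf ⟨1, 52, 42, 0⟩)))
(.node (.node (.leaf ⟨1, 37, 42, 0⟩)
(.leaf ⟨0, 10065, 0, 0⟩))
(.node (.leaf ⟨0, 7939, 0, 0⟩)
(.leaf ⟨0, 10631, 0, 0⟩))))
(.node (.node (.node (.leaf ⟨0, 7446, 0, 0⟩)
(.leaf ⟨0, 6439, 0, 0⟩))
(.node (.leaf ⟨1, 36, 34, 0⟩)
(.leaf ⟨0, 3306, 0, 0⟩)))
(.node (.node (.leaf ⟨0, 699, 0, 0⟩)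
(.leaf ⟨0, 15234, 0, 0⟩))
(.node (.leaf ⟨0, 10006, 0, 0⟩)
(.leaf ⟨2, 15109, 0, 0⟩))))))
(.node (.node (.node (.node (.node (.leaf ⟨0, 7876, 0, 0⟩)
(.leaf ⟨0, 239, 0, 0⟩))
(.node (.leaf ⟨0, 954, 0, 0⟩)
(.leaf ⟨0, 1591, 0, 0⟩)))
(.node (.node (.leaf ⟨0, 8066, 0, 0⟩)
(.leaf ⟨1, 67, 7, 0⟩))
(.node (.leaf ⟨2, 15379, 0, 0⟩)
(.leaf ⟨1, 112, 97, 0⟩))))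
(.node (.node (.node (.leaf ⟨1, 18, 68, 0⟩)
(.leaf ⟨0, 11139, 0, 0⟩))
(.node (.leaf ⟨1, 36, 40, 0⟩)
(.leaf ⟨0, 6223, 0, 0⟩)))
(.node (.node (.leaf ⟨0, 14216, 0, 0⟩)
(.leaf ⟨0, 10407, 0, 0⟩))
(.node (.leaf ⟨1, 7, 88, 0⟩)
(.leaf ⟨1, 22, 70, 0⟩)))))
(.node (.node (.node (.node (.leaf ⟨1, 13, 11, 0⟩)
(.leaf ⟨1, 3, 40, 0⟩))
(.node (.leaf ⟨0, 7120, 0, 0⟩)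
(.leaf ⟨1, 80, 20, 0⟩)))
(.node (.node (.leaf ⟨0, 11027, 0, 0⟩)
(.leaf ⟨1, 24, 5, 0⟩))
(.node (.leaf ⟨0, 16064, 0, 0⟩)
(.leaf ⟨0, 15116, 0, 0⟩))))
(.node (.node (.node (.leaf ⟨0, 7618, 0, 0⟩)
(.leaf ⟨0, 13077, 0, 0⟩))
(.node (.leaf ⟨1, 100, 49, 0⟩)
(.leaf ⟨0, 1884, 0, 0⟩)))
(.node (.node (.leaf ⟨0, 2397, 0, 0⟩)
(.leaf ⟨2, 13339, 0, 0⟩))
(.node (.leaf ⟨0, 12627, 0, 0⟩)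
(.leaf ⟨0, 6457, 0, 0⟩)))))))
(.node (.node (.node (.node (.node (.node (.leaf ⟨1, 40, 48, 0⟩)
(.leaf ⟨0, 14152, 0, 0⟩))
(.node (.leaf ⟨0, 14477, 0, 0⟩)
(.leaf ⟨1, 104, 42, 0⟩)))
(.node (.node (.leaf ⟨1, 76, 100, 0⟩)
(.leaf ⟨0, 11148, 0, 0⟩))
(.node (.leaf ⟨0, 2703, 0, 0⟩)
(.leaf ⟨1, 21, 21, 0⟩))))
(.node (.node (.node (.leaf ⟨0, 5655, 0, 0⟩)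
(.leaf ⟨0, 815, 0, 0⟩))
(.node (.leaf ⟨0, 1595, 0, 0⟩)
(.leaf ⟨0, 1135, 0, 0⟩)))
(.node (.node (.leaf ⟨1, 88, 76, 0⟩)
(.leaf ⟨1, 50, 50, 0⟩))
(.node (.leaf ⟨0, 719, 0, 0⟩)
(.leaf ⟨0, 1016, 0, 0⟩)))))
(.node (.node (.node (.node (.leaf ⟨0, 12815, 0, 0⟩)
(.leaf ⟨0, 4283, 0, 0⟩))
(.node (.leaf ⟨0, 1211, 0, 0⟩)
(.leaf ⟨1, 112, 42, 0⟩)))
(.node (.node (.leaf ⟨0, 1772, 0, 0⟩)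
(.leaf ⟨0, 11291, 0, 0⟩))
(.node (.leaf ⟨2, 13341, 0, 0⟩)
(.leaf ⟨0, 11160, 0, 0⟩))))
(.node (.node (.node (.leaf ⟨1, 121, 124, 0⟩)
(.leaf ⟨1, 19, 19, 0⟩))
(.node (.leaf ⟨0, 4596, 0, 0⟩)
(.leaf ⟨0, 5175, 0, 0⟩)))
(.node (.node (.leaf ⟨1, 80, 6, 0⟩)
(.leaf ⟨0, 1970, 0, 0⟩))
(.node (.leaf ⟨2, 13063, 0, 0⟩)
(.leaf ⟨0, 3719, 0, 0⟩))))))
(.node (.node (.node (.node (.node (.leaf ⟨0, 11030, 0, 0⟩)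
(.leaf ⟨0, 1012, 0, 0⟩))
(.node (.leaf ⟨1, 80, 48, 0⟩)
(.leaf ⟨0, 4008, 0, 0⟩)))
(.node (.node (.leaf ⟨0, 11651, 0, 0⟩)
(.leaf ⟨1, 68, 72, 0⟩))
(.node (.leaf ⟨2, 12375, 0, 0⟩)
(.leaf ⟨0, 13218, 0, 0⟩))))
(.node (.node (.node (.leaf ⟨0, 7941, 0, 0⟩)
(.leaf ⟨0, 12335, 0, 0⟩))
(.node (.leaf ⟨1, 66, 24, 0⟩)
(.leaf ⟨0, 8438, 0, 0⟩)))
(.node (.node (.leaf ⟨1, 9, 40, 0⟩)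
(.leaf ⟨1, 40, 20, 0⟩))
(.node (.leaf ⟨0, 1262, 0, 0⟩)
(.leaf ⟨2, 575, 0, 0⟩)))))
(.node (.node (.node (.node (.leaf ⟨1, 96, 12, 0⟩)
(.leaf ⟨0, 4594, 0, 0⟩))
(.node (.leaf ⟨1, 16, 2, 0⟩)
(.leaf ⟨2, 6021, 0, 0⟩)))
(.node (.node (.leaf ⟨0, 12843, 0, 0⟩)
(.leaf ⟨0, 2297, 0, 0⟩))
(.node (.leaf ⟨2, 15233, 0, 0⟩)
(.leaf ⟨1, 36, 9, 0⟩))))
(.node (.node (.node (.leaf ⟨0, 6626, 0, 0⟩)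
(.leaf ⟨1, 13, 42, 0⟩))
(.node (.leaf ⟨0, 13594, 0, 0⟩)
(.leaf ⟨0, 7045, 0, 0⟩)))
(.node (.node (.leaf ⟨0, 8479, 0, 0⟩)
(.leaf ⟨1, 24, 72, 0⟩))
(.node (.leaf ⟨0, 7586, 0, 0⟩)
(.leaf ⟨0, 10118, 0, 0⟩))))))))))
(.node (.node (.node (.node (.node (.node (.node (.node (.node (.node (.leaf ⟨1, 18, 5, 0⟩)
(.leaf ⟨0, 3194, 0, 0⟩))
(.leaf ⟨2, 7105, 0, 0⟩))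
(.node (.leaf ⟨0, 6064, 0, 0⟩)
(.leaf ⟨1, 24, 40, 0⟩)))
(.node (.node (.leaf ⟨0, 15628, 0, 0⟩)
(.leaf ⟨1, 96, 40, 0⟩))
(.node (.leaf ⟨1, 17, 24, 0⟩)
(.leaf ⟨0, 15138, 0, 0⟩))))
(.node (.node (.node (.leaf ⟨0, 15395, 0, 0⟩)
(.leaf ⟨1, 22, 104, 0⟩))
(.node (.leaf ⟨0, 13579, 0, 0⟩)
(.leaf ⟨0, 4407, 0, 0⟩)))
(.node (.node (.leaf ⟨1, 88, 104, 0⟩)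
(.leaf ⟨1, 115, 31, 0⟩))
(.node (.leaf ⟨0, 12041, 0, 0⟩)
(.leaf ⟨0, 3166, 0, 0⟩)))))
(.node (.node (.node (.node (.leaf ⟨1, 73, 7, 0⟩)
(.leaf ⟨1, 4, 8, 0⟩))
(.node (.leaf ⟨1, 112, 19, 0⟩)
(.leaf ⟨1, 37, 21, 0⟩)))
(.node (.node (.leaf ⟨1, 112, 100, 0⟩)
(.leaf ⟨0, 13351, 0, 0⟩))
(.node (.leaf ⟨0, 11916, 0, 0⟩)
(.leaf ⟨0, 1462, 0, 0⟩))))
(.node (.node (.node (.leaf ⟨1, 66, 9, 0⟩)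
(.leaf ⟨1, 67, 42, 0⟩))
(.node (.leaf ⟨1, 38, 21, 0⟩)
(.leaf ⟨1, 9, 9, 0⟩)))
(.node (.node (.leaf ⟨0, 9501, 0, 0⟩)
(.leaf ⟨0, 3182, 0, 0⟩))
(.node (.leaf ⟨1, 32, 4, 0⟩)
(.leaf ⟨1, 7, 82, 0⟩))))))
(.node (.node (.node (.node (.node (.leaf ⟨2, 15137, 0, 0⟩)
(.leaf ⟨1, 18, 80, 0⟩))
(.node (.leaf ⟨0, 6088, 0, 0⟩)
(.leaf ⟨0, 11914, 0, 0⟩)))
(.node (.node (.leaf ⟨0, 13590, 0, 0⟩)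
(.leaf ⟨0, 4285, 0, 0⟩))
(.node (.leaf ⟨1, 33, 18, 0⟩)
(.leaf ⟨1, 19, 69, 0⟩))))
(.node (.node (.node (.leaf ⟨0, 1243, 0, 0⟩)
(.leaf ⟨0, 6628, 0, 0⟩))
(.node (.leaf ⟨0, 10177, 0, 0⟩)
(.leaf ⟨1, 24, 9, 0⟩)))
(.node (.node (.leaf ⟨1, 68, 10, 0⟩)
(.leaf ⟨0, 1710, 0, 0⟩))
(.node (.leaf ⟨0, 4311, 0, 0⟩)
(.leaf ⟨0, 4342, 0, 0⟩)))))
(.node (.node (.node (.node (.leaf ⟨0, 15240, 0, 0⟩)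
(.leaf ⟨1, 5, 48, 0⟩))
(.node (.leaf ⟨0, 8311, 0, 0⟩)
(.leaf ⟨0, 415, 0, 0⟩)))
(.node (.node (.leaf ⟨1, 20, 80, 0⟩)
(.leaf ⟨0, 1276, 0, 0⟩))
(.node (.leaf ⟨1, 12, 20, 0⟩)
(.leaf ⟨0, 6205, 0, 0⟩))))
(.node (.node (.node (.leaf ⟨0, 254, 0, 0⟩)
(.leaf ⟨0, 13232, 0, 0⟩))
(.node (.leaf ⟨1, 80, 96, 0⟩)
(.leaf ⟨1, 104, 97, 0⟩)))
(.node (.node (.leaf ⟨0, 10287, 0, 0⟩)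
(.leaf ⟨0, 10178, 0, 0⟩))
(.node (.leaf ⟨0, 7558, 0, 0⟩)
(.leaf ⟨1, 64, 64, 0⟩)))))))
(.node (.node (.node (.node (.node (.node (.leaf ⟨0, 8068, 0, 0⟩)
(.leaf ⟨0, 6795, 0, 0⟩))
(.node (.leaf ⟨1, 4, 64, 0⟩)
(.leaf ⟨0, 14471, 0, 0⟩)))
(.node (.node (.leaf ⟨1, 80, 36, 0⟩)
(.leaf ⟨0, 223, 0, 0⟩))
(.node (.leaf ⟨0, 8435, 0, 0⟩)
(.leaf ⟨0, 10343, 0, 0⟩))))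
(.node (.node (.node (.leaf ⟨0, 15512, 0, 0⟩)
(.leaf ⟨1, 20, 9, 0⟩))
(.node (.leaf ⟨0, 3988, 0, 0⟩)
(.leaf ⟨0, 12446, 0, 0⟩)))
(.node (.node (.leaf ⟨0, 15760, 0, 0⟩)
(.leaf ⟨1, 98, 49, 0⟩))
(.node (.leaf ⟨1, 96, 96, 0⟩)
(.leaf ⟨1, 10, 48, 0⟩)))))
(.node (.node (.node (.node (.leaf ⟨0, 4655, 0, 0⟩)
(.leaf ⟨2, 11795, 0, 0⟩))
(.node (.leaf ⟨0, 16136, 0, 0⟩)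
(.leaf ⟨0, 13852, 0, 0⟩)))
(.node (.node (.leaf ⟨0, 4718, 0, 0⟩)
(.leaf ⟨0, 13955, 0, 0⟩))
(.node (.leaf ⟨1, 11, 67, 0⟩)
(.leaf ⟨0, 15875, 0, 0⟩))))
(.node (.node (.node (.leaf ⟨1, 112, 11, 0⟩)
(.leaf ⟨1, 73, 42, 0⟩))
(.node (.leaf ⟨1, 99, 120, 0⟩)
(.leaf ⟨1, 7, 81, 0⟩)))
(.node (.node (.leaf ⟨2, 15875, 0, 0⟩)
(.leaf ⟨0, 5604, 0, 0⟩))
(.node (.leaf ⟨0, 1948, 0, 0⟩)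
(.leaf ⟨0, 1339, 0, 0⟩))))))
(.node (.node (.node (.node (.node (.leaf ⟨1, 1, 1, 0⟩)
(.leaf ⟨1, 26, 49, 0⟩))
(.node (.leaf ⟨0, 13617, 0, 0⟩)
(.leaf ⟨1, 116, 102, 0⟩)))
(.node (.node (.leaf ⟨1, 84, 100, 0⟩)
(.leaf ⟨0, 15636, 0, 0⟩))
(.node (.leaf ⟨0, 15748, 0, 0⟩)
(.leaf ⟨1, 80, 24, 0⟩))))
(.node (.node (.node (.leaf ⟨0, 3000, 0, 0⟩)
(.leaf ⟨0, 6451, 0, 0⟩))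
(.node (.leaf ⟨1, 68, 40, 0⟩)
(.leaf ⟨0, 12176, 0, 0⟩)))
(.node (.node (.leaf ⟨0, 6259, 0, 0⟩)
(.leaf ⟨1, 14, 42, 0⟩))
(.node (.leaf ⟨1, 115, 122, 0⟩)
(.leaf ⟨0, 15388, 0, 0⟩)))))
(.node (.node (.node (.node (.leaf ⟨0, 10019, 0, 0⟩)
(.leaf ⟨0, 13355, 0, 0⟩))
(.node (.leaf ⟨0, 6919, 0, 0⟩)
(.leaf ⟨0, 6549, 0, 0⟩)))
(.node (.node (.leaf ⟨1, 100, 100, 0⟩)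
(.leaf ⟨1, 35, 19, 0⟩))
(.node (.leaf ⟨0, 1001, 0, 0⟩)
(.leaf ⟨1, 3, 18, 0⟩))))
(.node (.node (.node (.leaf ⟨0, 15041, 0, 0⟩)
(.leaf ⟨0, 4459, 0, 0⟩))
(.node (.leaf ⟨1, 3, 5, 0⟩)
(.leaf ⟨1, 87, 31, 0⟩)))
(.node (.node (.leaf ⟨1, 20, 40, 0⟩)
(.leaf ⟨0, 15626, 0, 0⟩))
(.node (.leaf ⟨1, 120, 114, 0⟩)
(.leaf ⟨1, 5, 80, 0⟩))))))))
(.node (.node (.node (.node (.node (.node (.node (.leaf ⟨0, 12567, 0, 0⟩)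
(.leaf ⟨0, 623, 0, 0⟩))
(.node (.leaf ⟨1, 18, 10, 0⟩)
(.leaf ⟨1, 50, 42, 0⟩)))
(.node (.node (.leaf ⟨1, 40, 33, 0⟩)
(.leaf ⟨1, 40, 96, 0⟩))
(.node (.leaf ⟨0, 13706, 0, 0⟩)
(.leaf ⟨2, 14209, 0, 0⟩))))
(.node (.node (.node (.leaf ⟨2, 7941, 0, 0⟩)
(.leaf ⟨0, 11907, 0, 0⟩))
(.node (.leaf ⟨0, 8495, 0, 0⟩)
(.leaf ⟨0, 11307, 0, 0⟩)))
(.node (.node (.leaf ⟨0, 4715, 0, 0⟩)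
(.leaf ⟨1, 21, 37, 0⟩))
(.node (.leaf ⟨0, 4255, 0, 0⟩)
(.leaf ⟨1, 35, 50, 0⟩)))))
(.node (.node (.node (.node (.leaf ⟨0, 3734, 0, 0⟩)
(.leaf ⟨0, 3343, 0, 0⟩))
(.node (.leaf ⟨1, 12, 10, 0⟩)
(.leaf ⟨0, 1327, 0, 0⟩)))
(.node (.node (.leaf ⟨0, 2008, 0, 0⟩)
(.leaf ⟨2, 7953, 0, 0⟩))
(.node (.leaf ⟨0, 1002, 0, 0⟩)
(.leaf ⟨0, 11924, 0, 0⟩))))
(.node (.node (.node (.leaf ⟨1, 120, 113, 0⟩)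
(.leaf ⟨0, 4879, 0, 0⟩))
(.node (.leaf ⟨0, 5263, 0, 0⟩)
(.leaf ⟨0, 15248, 0, 0⟩)))
(.node (.node (.leaf ⟨2, 251, 0, 0⟩)
(.leaf ⟨1, 22, 11, 0⟩))
(.node (.leaf ⟨1, 67, 49, 0⟩)
(.leaf ⟨1, 81, 49, 0⟩))))))
(.node (.node (.node (.node (.node (.leaf ⟨0, 1969, 0, 0⟩)
(.leaf ⟨1, 5, 3, 0⟩))
(.node (.leaf ⟨0, 3119, 0, 0⟩)
(.leaf ⟨1, 100, 42, 0⟩)))
(.node (.node (.leaf ⟨0, 11142, 0, 0⟩)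
(.leaf ⟨1, 16, 1, 0⟩))
(.node (.leaf ⟨0, 13970, 0, 0⟩)
(.leaf ⟨2, 505, 0, 0⟩))))
(.node (.node (.node (.leaf ⟨0, 15367, 0, 0⟩)
(.leaf ⟨0, 4663, 0, 0⟩))
(.node (.leaf ⟨0, 702, 0, 0⟩)
(.leaf ⟨1, 22, 14, 0⟩)))
(.node (.node (.leaf ⟨0, 7624, 0, 0⟩)
(.leaf ⟨1, 104, 98, 0⟩))
(.node (.leaf ⟨2, 14365, 0, 0⟩)
(.leaf ⟨0, 9337, 0, 0⟩)))))
(.node (.node (.node (.node (.leaf ⟨0, 14120, 0, 0⟩)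
(.leaf ⟨1, 44, 21, 0⟩))
(.node (.leaf ⟨0, 6616, 0, 0⟩)
(.leaf ⟨0, 15373, 0, 0⟩)))
(.node (.node (.leaf ⟨2, 1143, 0, 0⟩)
(.leaf ⟨0, 6423, 0, 0⟩))
(.node (.leaf ⟨1, 2, 2, 0⟩)
(.leaf ⟨0, 351, 0, 0⟩))))
(.node (.node (.node (.leaf ⟨0, 3553, 0, 0⟩)
(.leaf ⟨0, 10057, 0, 0⟩))
(.node (.leaf ⟨0, 2020, 0, 0⟩)
(.leaf ⟨1, 21, 19, 0⟩)))
(.node (.node (.leaf ⟨0, 3316, 0, 0⟩)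
(.leaf ⟨0, 12044, 0, 0⟩))
(.node (.leaf ⟨1, 40, 17, 0⟩)
(.leaf ⟨1, 7, 73, 0⟩)))))))
(.node (.node (.node (.node (.node (.node (.leaf ⟨0, 6683, 0, 0⟩)
(.leaf ⟨0, 13891, 0, 0⟩))
(.node (.leaf ⟨2, 493, 0, 0⟩)
(.leaf ⟨0, 16256, 0, 0⟩)))
(.node (.node (.leaf ⟨0, 1516, 0, 0⟩)
(.leaf ⟨1, 21, 69, 0⟩))
(.node (.leaf ⟨1, 59, 107, 0⟩)
(.leaf ⟨0, 13961, 0, 0⟩))))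
(.node (.node (.node (.leaf ⟨1, 5, 66, 0⟩)
(.leaf ⟨1, 72, 9, 0⟩))
(.node (.leaf ⟨1, 16, 32, 0⟩)
(.leaf ⟨0, 9875, 0, 0⟩)))
(.node (.node (.leaf ⟨0, 6550, 0, 0⟩)
(.leaf ⟨2, 15371, 0, 0⟩))
(.node (.leaf ⟨0, 7953, 0, 0⟩)
(.leaf ⟨0, 6931, 0, 0⟩)))))
(.node (.node (.node (.node (.leaf ⟨0, 10146, 0, 0⟩)
(.leaf ⟨1, 112, 74, 0⟩))
(.node (.leaf ⟨0, 2223, 0, 0⟩)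
(.leaf ⟨0, 8072, 0, 0⟩)))
(.node (.node (.leaf ⟨0, 15656, 0, 0⟩)
(.leaf ⟨1, 84, 50, 0⟩))
(.node (.leaf ⟨0, 15649, 0, 0⟩)
(.leaf ⟨0, 2447, 0, 0⟩))))
(.node (.node (.node (.leaf ⟨2, 8759, 0, 0⟩)
(.leaf ⟨2, 7617, 0, 0⟩))
(.node (.leaf ⟨1, 34, 18, 0⟩)
(.leaf ⟨1, 7, 21, 0⟩)))
(.node (.node (.leaf ⟨0, 11403, 0, 0⟩)
(.leaf ⟨1, 6, 10, 0⟩))
(.node (.leaf ⟨0, 5104, 0, 0⟩)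
(.leaf ⟨1, 124, 117, 0⟩))))))
(.node (.node (.node (.node (.node (.leaf ⟨0, 127, 0, 0⟩)
(.leaf ⟨1, 21, 81, 0⟩))
(.node (.leaf ⟨2, 14097, 0, 0⟩)
(.leaf ⟨1, 10, 33, 0⟩)))
(.node (.node (.leaf ⟨0, 15652, 0, 0⟩)
(.leaf ⟨0, 6882, 0, 0⟩))
(.node (.leaf ⟨0, 1962, 0, 0⟩)
(.leaf ⟨1, 13, 50, 0⟩))))
(.node (.node (.node (.leaf ⟨0, 508, 0, 0⟩)
(.leaf ⟨0, 14629, 0, 0⟩))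
(.node (.leaf ⟨1, 3, 9, 0⟩)
(.leaf ⟨1, 35, 21, 0⟩)))
(.node (.node (.leaf ⟨0, 6203, 0, 0⟩)
(.leaf ⟨0, 15745, 0, 0⟩))
(.node (.leaf ⟨0, 2428, 0, 0⟩)
(.leaf ⟨1, 14, 50, 0⟩)))))
(.node (.node (.node (.node (.leaf ⟨0, 8128, 0, 0⟩)
(.leaf ⟨0, 7195, 0, 0⟩))
(.node (.leaf ⟨0, 16129, 0, 0⟩)
(.leaf ⟨0, 16001, 0, 0⟩)))
(.node (.node (.leaf ⟨0, 2171, 0, 0⟩)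
(.leaf ⟨2, 15881, 0, 0⟩))
(.node (.leaf ⟨0, 11938, 0, 0⟩)
(.leaf ⟨1, 104, 50, 0⟩))))
(.node (.node (.node (.leaf ⟨1, 20, 24, 0⟩)
(.leaf ⟨1, 124, 109, 0⟩))
(.node (.leaf ⟨0, 11654, 0, 0⟩)
(.leaf ⟨0, 3302, 0, 0⟩)))
(.node (.node (.leaf ⟨1, 20, 33, 0⟩)
(.leaf ⟨1, 6, 6, 0⟩))
(.node (.leaf ⟨0, 2291, 0, 0⟩)
(.leaf ⟨0, 3028, 0, 0⟩)))))))))
(.node (.node (.node (.node (.node (.node (.node (.node (.leaf ⟨0, 4339, 0, 0⟩)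
(.leaf ⟨1, 44, 49, 0⟩))
(.node (.leaf ⟨1, 26, 42, 0⟩)
(.leaf ⟨1, 18, 24, 0⟩)))
(.node (.node (.leaf ⟨1, 2, 4, 0⟩)
(.leaf ⟨1, 33, 9, 0⟩))
(.node (.leaf ⟨1, 8, 8, 0⟩)
(.leaf ⟨1, 96, 66, 0⟩))))
(.node (.node (.node (.leaf ⟨0, 14994, 0, 0⟩)
(.leaf ⟨2, 16129, 0, 0⟩))
(.node (.leaf ⟨1, 104, 100, 0⟩)
(.leaf ⟨2, 12843, 0, 0⟩)))
(.node (.node (.leaf ⟨1, 52, 100, 0⟩)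
(.leaf ⟨1, 97, 42, 0⟩))
(.node (.leaf ⟨1, 17, 3, 0⟩)
(.leaf ⟨1, 74, 42, 0⟩)))))
(.node (.node (.node (.node (.leaf ⟨1, 97, 50, 0⟩)
(.leaf ⟨1, 1, 16, 0⟩))
(.node (.leaf ⟨1, 24, 24, 0⟩)
(.leaf ⟨0, 9271, 0, 0⟩)))
(.node (.node (.leaf ⟨1, 34, 20, 0⟩)
(.leaf ⟨0, 6033, 0, 0⟩))
(.node (.leaf ⟨2, 12875, 0, 0⟩)
(.leaf ⟨0, 2032, 0, 0⟩))))
(.node (.node (.node (.leaf ⟨0, 3189, 0, 0⟩)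
(.leaf ⟨0, 14351, 0, 0⟩))
(.node (.leaf ⟨0, 14085, 0, 0⟩)
(.leaf ⟨0, 7570, 0, 0⟩)))
(.node (.node (.leaf ⟨1, 21, 42, 0⟩)
(.leaf ⟨2, 9275, 0, 0⟩))
(.node (.leaf ⟨2, 14661, 0, 0⟩)
(.leaf ⟨1, 18, 17, 0⟩))))))
(.node (.node (.node (.node (.node (.leaf ⟨1, 88, 81, 0⟩)
(.leaf ⟨0, 4446, 0, 0⟩))
(.node (.leaf ⟨0, 13845, 0, 0⟩)
(.leaf ⟨1, 21, 22, 0⟩)))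
(.node (.node (.leaf ⟨2, 2173, 0, 0⟩)
(.leaf ⟨1, 96, 48, 0⟩))
(.node (.leaf ⟨0, 13972, 0, 0⟩)
(.leaf ⟨0, 2552, 0, 0⟩))))
(.node (.node (.node (.leaf ⟨0, 14359, 0, 0⟩)
(.leaf ⟨2, 5511, 0, 0⟩))
(.node (.leaf ⟨0, 1597, 0, 0⟩)
(.leaf ⟨1, 84, 84, 0⟩)))
(.node (.node (.leaf ⟨0, 7076, 0, 0⟩)
(.leaf ⟨1, 68, 5, 0⟩))
(.node (.leaf ⟨2, 6019, 0, 0⟩)
(.leaf ⟨0, 11153, 0, 0⟩)))))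
(.node (.node (.node (.node (.leaf ⟨1, 10, 3, 0⟩)
(.leaf ⟨1, 52, 21, 0⟩))
(.node (.leaf ⟨0, 5771, 0, 0⟩)
(.leaf ⟨1, 70, 21, 0⟩)))
(.node (.node (.leaf ⟨0, 4431, 0, 0⟩)
(.leaf ⟨1, 7, 56, 0⟩))
(.node (.leaf ⟨0, 10523, 0, 0⟩)
(.leaf ⟨0, 13462, 0, 0⟩))))
(.node (.node (.node (.leaf ⟨0, 4999, 0, 0⟩)
(.leaf ⟨1, 35, 42, 0⟩))
(.node (.leaf ⟨2, 12827, 0, 0⟩)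
(.leaf ⟨0, 6671, 0, 0⟩)))
(.node (.node (.leaf ⟨1, 9, 3, 0⟩)
(.leaf ⟨1, 21, 56, 0⟩))
(.node (.leaf ⟨1, 96, 18, 0⟩)
(.leaf ⟨0, 9995, 0, 0⟩)))))))
(.node (.node (.node (.node (.node (.node (.leaf ⟨0, 11232, 0, 0⟩)
(.leaf ⟨1, 17, 65, 0⟩))
(.node (.leaf ⟨0, 2647, 0, 0⟩)
(.leaf ⟨1, 66, 5, 0⟩)))
(.node (.node (.leaf ⟨0, 7445, 0, 0⟩)
(.leaf ⟨1, 22, 38, 0⟩))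
(.node (.leaf ⟨1, 6, 36, 0⟩)
(.leaf ⟨1, 4, 1, 0⟩))))
(.node (.node (.node (.leaf ⟨0, 6445, 0, 0⟩)
(.leaf ⟨1, 103, 47, 0⟩))
(.node (.leaf ⟨0, 1927, 0, 0⟩)
(.leaf ⟨1, 17, 33, 0⟩)))
(.node (.node (.leaf ⟨1, 97, 104, 0⟩)
(.leaf ⟨0, 5616, 0, 0⟩))
(.node (.leaf ⟨1, 16, 16, 0⟩)
(.leaf ⟨1, 52, 49, 0⟩)))))
(.node (.node (.node (.node (.leaf ⟨1, 9, 10, 0⟩)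
(.leaf ⟨0, 6021, 0, 0⟩))
(.node (.leaf ⟨0, 2004, 0, 0⟩)
(.leaf ⟨0, 1660, 0, 0⟩)))
(.node (.node (.leaf ⟨0, 3556, 0, 0⟩)
(.leaf ⟨0, 15877, 0, 0⟩))
(.node (.leaf ⟨1, 72, 20, 0⟩)
(.leaf ⟨2, 14883, 0, 0⟩))))
(.node (.node (.node (.leaf ⟨0, 6022, 0, 0⟩)
(.leaf ⟨0, 15236, 0, 0⟩))
(.node (.leaf ⟨1, 7, 26, 0⟩)
(.leaf ⟨1, 22, 84, 0⟩)))
(.node (.node (.leaf ⟨0, 4667, 0, 0⟩)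
(.leaf ⟨0, 501, 0, 0⟩))
(.node (.leaf ⟨0, 8379, 0, 0⟩)
(.leaf ⟨0, 13729, 0, 0⟩))))))
(.node (.node (.node (.node (.node (.leaf ⟨1, 22, 42, 0⟩)
(.leaf ⟨1, 32, 8, 0⟩))
(.node (.leaf ⟨0, 15746, 0, 0⟩)
(.leaf ⟨1, 5, 40, 0⟩)))
(.node (.node (.leaf ⟨0, 14996, 0, 0⟩)
(.leaf ⟨0, 1010, 0, 0⟩))
(.node (.leaf ⟨0, 3044, 0, 0⟩)
(.leaf ⟨0, 6295, 0, 0⟩))))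
(.node (.node (.node (.leaf ⟨1, 20, 96, 0⟩)
(.leaf ⟨1, 20, 72, 0⟩))
(.node (.leaf ⟨0, 1522, 0, 0⟩)
(.leaf ⟨1, 22, 7, 0⟩)))
(.node (.node (.leaf ⟨2, 2159, 0, 0⟩)
(.leaf ⟨0, 15892, 0, 0⟩))
(.node (.leaf ⟨1, 101, 116, 0⟩)
(.leaf ⟨0, 6695, 0, 0⟩)))))
(.node (.node (.node (.node (.leaf ⟨0, 11795, 0, 0⟩)
(.leaf ⟨0, 3554, 0, 0⟩))
(.node (.leaf ⟨1, 56, 42, 0⟩)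
(.leaf ⟨1, 98, 98, 0⟩)))
(.node (.node (.leaf ⟨2, 2143, 0, 0⟩)
(.leaf ⟨0, 7191, 0, 0⟩))
(.node (.leaf ⟨1, 99, 108, 0⟩)
(.leaf ⟨0, 9755, 0, 0⟩))))
(.node (.node (.node (.leaf ⟨0, 9367, 0, 0⟩)
(.leaf ⟨1, 9, 17, 0⟩))
(.node (.leaf ⟨0, 5511, 0, 0⟩)
(.leaf ⟨0, 12829, 0, 0⟩)))
(.node (.node (.leaf ⟨0, 4383, 0, 0⟩)
(.leaf ⟨0, 5899, 0, 0⟩))
(.node (.leaf ⟨0, 3042, 0, 0⟩)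
(.leaf ⟨1, 17, 17, 0⟩))))))))
(.node (.node (.node (.node (.node (.node (.node (.leaf ⟨0, 7702, 0, 0⟩)
(.leaf ⟨1, 68, 17, 0⟩))
(.node (.leaf ⟨0, 764, 0, 0⟩)
(.leaf ⟨0, 11542, 0, 0⟩)))
(.node (.node (.leaf ⟨0, 2831, 0, 0⟩)
(.leaf ⟨2, 14375, 0, 0⟩))
(.node (.leaf ⟨1, 40, 18, 0⟩)
(.leaf ⟨1, 7, 52, 0⟩))))
(.node (.node (.node (.leaf ⟨0, 487, 0, 0⟩)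
(.leaf ⟨0, 15634, 0, 0⟩))
(.node (.leaf ⟨1, 12, 72, 0⟩)
(.leaf ⟨2, 1147, 0, 0⟩)))
(.node (.node (.leaf ⟨0, 7817, 0, 0⟩)
(.leaf ⟨2, 14407, 0, 0⟩))
(.node (.leaf ⟨1, 32, 16, 0⟩)
(.leaf ⟨2, 14921, 0, 0⟩)))))
(.node (.node (.node (.node (.leaf ⟨1, 68, 68, 0⟩)
(.leaf ⟨0, 3532, 0, 0⟩))
(.node (.leaf ⟨0, 950, 0, 0⟩)
(.leaf ⟨1, 23, 83, 0⟩)))
(.node (.node (.leaf ⟨1, 36, 10, 0⟩)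
(.leaf ⟨1, 96, 10, 0⟩))
(.node (.leaf ⟨1, 17, 72, 0⟩)
(.leaf ⟨1, 24, 33, 0⟩))))
(.node (.node (.node (.leaf ⟨0, 8315, 0, 0⟩)
(.leaf ⟨0, 2531, 0, 0⟩))
(.node (.leaf ⟨0, 15881, 0, 0⟩)
(.leaf ⟨0, 7557, 0, 0⟩)))
(.node (.node (.leaf ⟨0, 1852, 0, 0⟩)
(.leaf ⟨0, 7828, 0, 0⟩))
(.node (.leaf ⟨1, 21, 82, 0⟩)
(.leaf ⟨0, 2298, 0, 0⟩))))))
(.node (.node (.node (.node (.node (.leaf ⟨0, 8983, 0, 0⟩)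
(.leaf ⟨1, 97, 49, 0⟩))
(.node (.leaf ⟨1, 115, 55, 0⟩)
(.leaf ⟨1, 8, 4, 0⟩)))
(.node (.node (.leaf ⟨1, 100, 104, 0⟩)
(.leaf ⟨1, 96, 20, 0⟩))
(.node (.leaf ⟨0, 12395, 0, 0⟩)
(.leaf ⟨1, 105, 108, 0⟩))))
(.node (.node (.node (.leaf ⟨0, 10130, 0, 0⟩)
(.leaf ⟨0, 1423, 0, 0⟩))
(.node (.leaf ⟨1, 21, 88, 0⟩)
(.leaf ⟨0, 755, 0, 0⟩)))
(.node (.node (.leaf ⟨0, 5151, 0, 0⟩)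
(.leaf ⟨2, 8735, 0, 0⟩))
(.node (.leaf ⟨0, 3133, 0, 0⟩)
(.leaf ⟨0, 3041, 0, 0⟩)))))
(.node (.node (.node (.node (.leaf ⟨0, 13250, 0, 0⟩)
(.leaf ⟨0, 4600, 0, 0⟩))
(.node (.leaf ⟨1, 88, 49, 0⟩)
(.leaf ⟨1, 98, 112, 0⟩)))
(.node (.node (.leaf ⟨2, 12939, 0, 0⟩)
(.leaf ⟨0, 6034, 0, 0⟩))
(.node (.leaf ⟨1, 32, 32, 0⟩)
(.leaf ⟨1, 36, 18, 0⟩))))
(.node (.node (.node (.leaf ⟨0, 5872, 0, 0⟩)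
(.leaf ⟨1, 6, 34, 0⟩))
(.node (.leaf ⟨0, 2684, 0, 0⟩)
(.leaf ⟨0, 14387, 0, 0⟩)))
(.node (.node (.leaf ⟨2, 14085, 0, 0⟩)
(.leaf ⟨2, 15113, 0, 0⟩))
(.node (.leaf ⟨0, 5364, 0, 0⟩)
(.leaf ⟨0, 4159, 0, 0⟩)))))))
(.node (.node (.node (.node (.node (.node (.leaf ⟨1, 10, 20, 0⟩)
(.leaf ⟨2, 8751, 0, 0⟩))
(.node (.leaf ⟨1, 104, 44, 0⟩)
(.leaf ⟨0, 5179, 0, 0⟩)))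
(.node (.node (.leaf ⟨1, 7, 98, 0⟩)
(.leaf ⟨0, 2670, 0, 0⟩))
(.node (.leaf ⟨0, 6791, 0, 0⟩)
(.leaf ⟨0, 1567, 0, 0⟩))))
(.node (.node (.node (.leaf ⟨1, 36, 5, 0⟩)
(.leaf ⟨2, 9095, 0, 0⟩))
(.node (.leaf ⟨1, 112, 49, 0⟩)
(.leaf ⟨1, 8, 64, 0⟩)))
(.node (.node (.leaf ⟨0, 2607, 0, 0⟩)
(.leaf ⟨0, 10299, 0, 0⟩))
(.node (.leaf ⟨2, 15877, 0, 0⟩)
(.leaf ⟨0, 758, 0, 0⟩)))))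
(.node (.node (.node (.node (.leaf ⟨1, 50, 49, 0⟩)
(.leaf ⟨0, 12439, 0, 0⟩))
(.node (.leaf ⟨2, 8765, 0, 0⟩)
(.leaf ⟨0, 15890, 0, 0⟩)))
(.node (.node (.leaf ⟨1, 7, 38, 0⟩)
(.leaf ⟨1, 74, 50, 0⟩))
(.node (.leaf ⟨1, 104, 104, 0⟩)
(.leaf ⟨0, 3980, 0, 0⟩))))
(.node (.node (.node (.leaf ⟨1, 2, 1, 0⟩)
(.leaf ⟨1, 36, 96, 0⟩))
(.node (.leaf ⟨1, 14, 21, 0⟩)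
(.leaf ⟨0, 6301, 0, 0⟩)))
(.node (.node (.leaf ⟨0, 9991, 0, 0⟩)
(.leaf ⟨1, 64, 4, 0⟩))
(.node (.leaf ⟨0, 7954, 0, 0⟩)
(.leaf ⟨1, 7, 13, 0⟩))))))
(.node (.node (.node (.node (.node (.leaf ⟨0, 11029, 0, 0⟩)
(.leaf ⟨1, 22, 98, 0⟩))
(.node (.leaf ⟨1, 17, 9, 0⟩)
(.leaf ⟨0, 4411, 0, 0⟩)))
(.node (.node (.leaf ⟨1, 21, 44, 0⟩)
(.leaf ⟨1, 21, 28, 0⟩))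
(.node (.leaf ⟨1, 72, 24, 0⟩)
(.leaf ⟨1, 84, 42, 0⟩))))
(.node (.node (.node (.leaf ⟨0, 14993, 0, 0⟩)
(.leaf ⟨1, 7, 14, 0⟩))
(.node (.leaf ⟨0, 2237, 0, 0⟩)
(.leaf ⟨0, 12038, 0, 0⟩)))
(.node (.node (.leaf ⟨0, 10124, 0, 0⟩)
(.leaf ⟨0, 10192, 0, 0⟩))
(.node (.leaf ⟨0, 445, 0, 0⟩)
(.leaf ⟨1, 42, 42, 0⟩)))))
(.node (.node (.node (.node (.leaf ⟨0, 1807, 0, 0⟩)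
(.leaf ⟨1, 24, 96, 0⟩))
(.node (.leaf ⟨0, 11146, 0, 0⟩)
(.leaf ⟨0, 7945, 0, 0⟩)))
(.node (.node (.leaf ⟨1, 4, 4, 0⟩)
(.leaf ⟨1, 80, 9, 0⟩))
(.node (.leaf ⟨0, 13252, 0, 0⟩)
(.leaf ⟨1, 35, 7, 0⟩))))
(.node (.node (.node (.leaf ⟨1, 12, 34, 0⟩)
(.leaf ⟨1, 73, 50, 0⟩))
(.node (.leaf ⟨0, 4639, 0, 0⟩)
(.leaf ⟨0, 14792, 0, 0⟩)))
(.node (.node (.leaf ⟨0, 5405, 0, 0⟩)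
(.leaf ⟨0, 3478, 0, 0⟩))
(.node (.leaf ⟨1, 37, 49, 0⟩)
(.leaf ⟨0, 6632, 0, 0⟩)))))))))))
(.node (.node (.node (.node (.node (.node (.node (.node (.node (.node (.node (.leaf ⟨1, 96, 72, 0⟩)
(.leaf ⟨0, 11666, 0, 0⟩))
(.leaf ⟨2, 14359, 0, 0⟩))
(.node (.leaf ⟨0, 6199, 0, 0⟩)
(.leaf ⟨0, 10033, 0, 0⟩)))
(.node (.node (.leaf ⟨0, 14873, 0, 0⟩)
(.leaf ⟨1, 18, 12, 0⟩))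
(.node (.leaf ⟨1, 76, 49, 0⟩)
(.leaf ⟨1, 17, 68, 0⟩))))
(.node (.node (.node (.leaf ⟨2, 13891, 0, 0⟩)
(.leaf ⟨1, 11, 19, 0⟩))
(.node (.leaf ⟨1, 100, 97, 0⟩)
(.leaf ⟨0, 10132, 0, 0⟩)))
(.node (.node (.leaf ⟨0, 1207, 0, 0⟩)
(.leaf ⟨1, 10, 18, 0⟩))
(.node (.leaf ⟨0, 14089, 0, 0⟩)
(.leaf ⟨1, 112, 56, 0⟩)))))
(.node (.node (.node (.node (.leaf ⟨1, 84, 88, 0⟩)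
(.leaf ⟨0, 10025, 0, 0⟩))
(.node (.leaf ⟨0, 7701, 0, 0⟩)
(.leaf ⟨0, 12830, 0, 0⟩)))
(.node (.node (.leaf ⟨1, 18, 72, 0⟩)
(.leaf ⟨2, 8315, 0, 0⟩))
(.node (.leaf ⟨0, 8303, 0, 0⟩)
(.leaf ⟨2, 5241, 0, 0⟩))))
(.node (.node (.node (.leaf ⟨0, 1119, 0, 0⟩)
(.leaf ⟨1, 34, 48, 0⟩))
(.node (.leaf ⟨2, 15427, 0, 0⟩)
(.leaf ⟨0, 6679, 0, 0⟩)))
(.node (.node (.leaf ⟨0, 10519, 0, 0⟩)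
(.leaf ⟨0, 14982, 0, 0⟩))
(.node (.leaf ⟨2, 15367, 0, 0⟩)
(.leaf ⟨1, 5, 96, 0⟩))))))
(.node (.node (.node (.node (.node (.leaf ⟨0, 9771, 0, 0⟩)
(.leaf ⟨1, 36, 48, 0⟩))
(.node (.leaf ⟨1, 25, 25, 0⟩)
(.leaf ⟨0, 10051, 0, 0⟩)))
(.node (.node (.leaf ⟨0, 16016, 0, 0⟩)
(.leaf ⟨1, 36, 20, 0⟩))
(.node (.leaf ⟨1, 72, 33, 0⟩)
(.leaf ⟨0, 10397, 0, 0⟩))))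
(.node (.node (.node (.leaf ⟨0, 14086, 0, 0⟩)
(.leaf ⟨0, 6933, 0, 0⟩))
(.node (.leaf ⟨0, 11653, 0, 0⟩)
(.leaf ⟨0, 7057, 0, 0⟩)))
(.node (.node (.leaf ⟨0, 9502, 0, 0⟩)
(.leaf ⟨0, 10511, 0, 0⟩))
(.node (.leaf ⟨1, 56, 50, 0⟩)
(.leaf ⟨0, 8382, 0, 0⟩)))))
(.node (.node (.node (.node (.leaf ⟨0, 15264, 0, 0⟩)
(.leaf ⟨0, 10148, 0, 0⟩))
(.node (.leaf ⟨1, 7, 25, 0⟩)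
(.leaf ⟨0, 13339, 0, 0⟩)))
(.node (.node (.leaf ⟨0, 6247, 0, 0⟩)
(.leaf ⟨2, 1927, 0, 0⟩))
(.node (.leaf ⟨1, 65, 10, 0⟩)
(.leaf ⟨1, 68, 36, 0⟩))))
(.node (.node (.node (.leaf ⟨1, 3, 6, 0⟩)
(.leaf ⟨1, 66, 34, 0⟩))
(.node (.leaf ⟨1, 81, 13, 0⟩)
(.leaf ⟨0, 15374, 0, 0⟩)))
(.node (.node (.leaf ⟨0, 12839, 0, 0⟩)
(.leaf ⟨0, 10791, 0, 0⟩))
(.node (.leaf ⟨1, 24, 48, 0⟩)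
(.leaf ⟨1, 11, 49, 0⟩)))))))
(.node (.node (.node (.node (.node (.node (.leaf ⟨1, 81, 21, 0⟩)
(.leaf ⟨0, 13964, 0, 0⟩))
(.node (.leaf ⟨0, 5181, 0, 0⟩)
(.leaf ⟨1, 17, 48, 0⟩)))
(.node (.node (.leaf ⟨0, 3985, 0, 0⟩)
(.leaf ⟨2, 13843, 0, 0⟩))
(.node (.leaf ⟨1, 80, 68, 0⟩)
(.leaf ⟨2, 12319, 0, 0⟩))))
(.node (.node (.node (.leaf ⟨1, 22, 28, 0⟩)
(.leaf ⟨0, 2159, 0, 0⟩))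
(.node (.leaf ⟨0, 5211, 0, 0⟩)
(.leaf ⟨2, 10271, 0, 0⟩)))
(.node (.node (.leaf ⟨0, 12224, 0, 0⟩)
(.leaf ⟨1, 104, 21, 0⟩))
(.node (.leaf ⟨0, 14104, 0, 0⟩)
(.leaf ⟨1, 56, 49, 0⟩)))))
(.node (.node (.node (.node (.leaf ⟨0, 15128, 0, 0⟩)
(.leaf ⟨1, 10, 5, 0⟩))
(.node (.leaf ⟨1, 5, 24, 0⟩)
(.leaf ⟨1, 18, 65, 0⟩)))
(.node (.node (.leaf ⟨0, 3753, 0, 0⟩)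
(.leaf ⟨1, 18, 36, 0⟩))
(.node (.leaf ⟨1, 112, 70, 0⟩)
(.leaf ⟨2, 13067, 0, 0⟩))))
(.node (.node (.node (.leaf ⟨0, 12935, 0, 0⟩)
(.leaf ⟨1, 22, 25, 0⟩))
(.node (.leaf ⟨1, 112, 104, 0⟩)
(.leaf ⟨0, 11910, 0, 0⟩)))
(.node (.node (.leaf ⟨1, 48, 48, 0⟩)
(.leaf ⟨0, 8375, 0, 0⟩))
(.node (.leaf ⟨0, 11154, 0, 0⟩)
(.leaf ⟨0, 8765, 0, 0⟩))))))
(.node (.node (.node (.node (.node (.leaf ⟨1, 80, 17, 0⟩)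
(.leaf ⟨0, 9003, 0, 0⟩))
(.node (.leaf ⟨0, 4670, 0, 0⟩)
(.leaf ⟨0, 10122, 0, 0⟩)))
(.node (.node (.leaf ⟨2, 5655, 0, 0⟩)
(.leaf ⟨0, 13603, 0, 0⟩))
(.node (.leaf ⟨0, 15522, 0, 0⟩)
(.leaf ⟨0, 1270, 0, 0⟩))))
(.node (.node (.node (.leaf ⟨2, 1009, 0, 0⟩)
(.leaf ⟨0, 13432, 0, 0⟩))
(.node (.leaf ⟨1, 72, 34, 0⟩)
(.leaf ⟨0, 14160, 0, 0⟩)))
(.node (.node (.leaf ⟨0, 11811, 0, 0⟩)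
(.leaf ⟨1, 48, 33, 0⟩))
(.node (.leaf ⟨0, 9767, 0, 0⟩)
(.leaf ⟨0, 4279, 0, 0⟩)))))
(.node (.node (.node (.node (.leaf ⟨0, 6458, 0, 0⟩)
(.leaf ⟨2, 501, 0, 0⟩))
(.node (.leaf ⟨0, 8735, 0, 0⟩)
(.leaf ⟨0, 9359, 0, 0⟩)))
(.node (.node (.leaf ⟨0, 8423, 0, 0⟩)
(.leaf ⟨1, 44, 104, 0⟩))
(.node (.leaf ⟨1, 112, 22, 0⟩)
(.leaf ⟨0, 12042, 0, 0⟩))))
(.node (.node (.node (.leaf ⟨0, 15554, 0, 0⟩)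
(.leaf ⟨0, 6266, 0, 0⟩))
(.node (.leaf ⟨0, 3444, 0, 0⟩)
(.leaf ⟨1, 7, 84, 0⟩)))
(.node (.node (.leaf ⟨1, 72, 96, 0⟩)
(.leaf ⟨1, 73, 49, 0⟩))
(.node (.leaf ⟨0, 6287, 0, 0⟩)
(.leaf ⟨1, 35, 35, 0⟩))))))))
(.node (.node (.node (.node (.node (.node (.node (.leaf ⟨1, 99, 15, 0⟩)
(.leaf ⟨0, 9095, 0, 0⟩))
(.node (.leaf ⟨1, 6, 12, 0⟩)
(.leaf ⟨1, 96, 68, 0⟩)))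
(.node (.node (.leaf ⟨1, 10, 17, 0⟩)
(.leaf ⟨1, 32, 64, 0⟩))
(.node (.leaf ⟨0, 8351, 0, 0⟩)
(.leaf ⟨1, 98, 104, 0⟩))))
(.node (.node (.node (.leaf ⟨0, 14407, 0, 0⟩)
(.leaf ⟨1, 117, 124, 0⟩))
(.node (.leaf ⟨1, 19, 50, 0⟩)
(.leaf ⟨1, 21, 73, 0⟩)))
(.node (.node (.leaf ⟨1, 48, 34, 0⟩)
(.leaf ⟨0, 13958, 0, 0⟩))
(.node (.leaf ⟨1, 38, 42, 0⟩)
(.leaf ⟨0, 1514, 0, 0⟩)))))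
(.node (.node (.node (.node (.leaf ⟨0, 3862, 0, 0⟩)
(.leaf ⟨1, 72, 40, 0⟩))
(.node (.leaf ⟨0, 6040, 0, 0⟩)
(.leaf ⟨0, 13635, 0, 0⟩)))
(.node (.node (.leaf ⟨1, 11, 25, 0⟩)
(.leaf ⟨1, 5, 18, 0⟩))
(.node (.leaf ⟨0, 8696, 0, 0⟩)
(.leaf ⟨0, 7600, 0, 0⟩))))
(.node (.node (.node (.leaf ⟨0, 2615, 0, 0⟩)
(.leaf ⟨2, 11787, 0, 0⟩))
(.node (.leaf ⟨0, 1941, 0, 0⟩)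
(.leaf ⟨1, 97, 112, 0⟩)))
(.node (.node (.leaf ⟨0, 2538, 0, 0⟩)
(.leaf ⟨0, 9334, 0, 0⟩))
(.node (.leaf ⟨1, 82, 21, 0⟩)
(.leaf ⟨1, 34, 10, 0⟩))))))
(.node (.node (.node (.node (.node (.leaf ⟨0, 13699, 0, 0⟩)
(.leaf ⟨1, 6, 96, 0⟩))
(.node (.leaf ⟨0, 12939, 0, 0⟩)
(.leaf ⟨0, 11940, 0, 0⟩)))
(.node (.node (.leaf ⟨0, 11279, 0, 0⟩)
(.leaf ⟨2, 2017, 0, 0⟩))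
(.node (.leaf ⟨0, 13280, 0, 0⟩)
(.leaf ⟨1, 116, 86, 0⟩))))
(.node (.node (.node (.leaf ⟨0, 750, 0, 0⟩)
(.leaf ⟨1, 80, 5, 0⟩))
(.node (.leaf ⟨2, 12431, 0, 0⟩)
(.leaf ⟨1, 34, 72, 0⟩)))
(.node (.node (.leaf ⟨0, 13768, 0, 0⟩)
(.leaf ⟨0, 2111, 0, 0⟩))
(.node (.leaf ⟨0, 2422, 0, 0⟩)
(.leaf ⟨0, 12367, 0, 0⟩)))))
(.node (.node (.node (.node (.leaf ⟨1, 19, 42, 0⟩)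
(.leaf ⟨1, 23, 85, 0⟩))
(.node (.leaf ⟨0, 14981, 0, 0⟩)
(.leaf ⟨0, 2267, 0, 0⟩)))
(.node (.node (.leaf ⟨0, 10525, 0, 0⟩)
(.leaf ⟨0, 1972, 0, 0⟩))
(.node (.leaf ⟨1, 42, 49, 0⟩)
(.leaf ⟨1, 98, 42, 0⟩))))
(.node (.node (.node (.leaf ⟨0, 7699, 0, 0⟩)
(.leaf ⟨0, 253, 0, 0⟩))
(.node (.leaf ⟨0, 11783, 0, 0⟩)
(.leaf ⟨0, 12947, 0, 0⟩)))
(.node (.node (.leaf ⟨0, 5406, 0, 0⟩)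
(.leaf ⟨1, 2, 16, 0⟩))
(.node (.leaf ⟨0, 1912, 0, 0⟩)
(.leaf ⟨1, 3, 20, 0⟩)))))))
(.node (.node (.node (.node (.node (.node (.leaf ⟨0, 8255, 0, 0⟩)
(.leaf ⟨0, 15494, 0, 0⟩))
(.node (.leaf ⟨0, 1679, 0, 0⟩)
(.leaf ⟨0, 15371, 0, 0⟩)))
(.node (.node (.leaf ⟨0, 12431, 0, 0⟩)
(.leaf ⟨0, 2524, 0, 0⟩))
(.node (.leaf ⟨0, 2546, 0, 0⟩)
(.leaf ⟨1, 88, 88, 0⟩))))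
(.node (.node (.node (.leaf ⟨2, 1087, 0, 0⟩)
(.leaf ⟨0, 1882, 0, 0⟩))
(.node (.leaf ⟨0, 10984, 0, 0⟩)
(.leaf ⟨0, 889, 0, 0⟩)))
(.node (.node (.leaf ⟨0, 8759, 0, 0⟩)
(.leaf ⟨0, 7588, 0, 0⟩))
(.node (.leaf ⟨0, 5647, 0, 0⟩)
(.leaf ⟨0, 7888, 0, 0⟩)))))
(.node (.node (.node (.node (.leaf ⟨2, 14867, 0, 0⟩)
(.leaf ⟨0, 15808, 0, 0⟩))
(.node (.leaf ⟨0, 9325, 0, 0⟩)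
(.leaf ⟨0, 11015, 0, 0⟩)))
(.node (.node (.leaf ⟨0, 12375, 0, 0⟩)
(.leaf ⟨1, 66, 17, 0⟩))
(.node (.leaf ⟨0, 475, 0, 0⟩)
(.leaf ⟨0, 15296, 0, 0⟩))))
(.node (.node (.node (.leaf ⟨0, 6175, 0, 0⟩)
(.leaf ⟨1, 69, 42, 0⟩))
(.node (.leaf ⟨1, 43, 27, 0⟩)
(.leaf ⟨1, 21, 100, 0⟩)))
(.node (.node (.leaf ⟨1, 66, 48, 0⟩)
(.leaf ⟨0, 2548, 0, 0⟩))
(.node (.leaf ⟨0, 4016, 0, 0⟩)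
(.leaf ⟨2, 15621, 0, 0⟩))))))
(.node (.node (.node (.node (.node (.leaf ⟨1, 22, 82, 0⟩)
(.leaf ⟨0, 1721, 0, 0⟩))
(.node (.leaf ⟨0, 2951, 0, 0⟩)
(.leaf ⟨1, 21, 49, 0⟩)))
(.node (.node (.leaf ⟨1, 114, 90, 0⟩)
(.leaf ⟨0, 7880, 0, 0⟩))
(.node (.leaf ⟨0, 12827, 0, 0⟩)
(.leaf ⟨0, 6253, 0, 0⟩))))
(.node (.node (.node (.leaf ⟨1, 108, 105, 0⟩)
(.leaf ⟨0, 3018, 0, 0⟩))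
(.node (.leaf ⟨1, 112, 73, 0⟩)
(.leaf ⟨1, 7, 22, 0⟩)))
(.node (.node (.leaf ⟨0, 8684, 0, 0⟩)
(.leaf ⟨1, 112, 52, 0⟩))
(.node (.leaf ⟨0, 11787, 0, 0⟩)
(.leaf ⟨0, 7818, 0, 0⟩)))))
(.node (.node (.node (.node (.leaf ⟨1, 65, 34, 0⟩)
(.leaf ⟨1, 85, 15, 0⟩))
(.node (.leaf ⟨2, 13187, 0, 0⟩)
(.leaf ⟨0, 446, 0, 0⟩)))
(.node (.node (.leaf ⟨0, 3861, 0, 0⟩)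
(.leaf ⟨0, 13714, 0, 0⟩))
(.node (.leaf ⟨0, 10184, 0, 0⟩)
(.leaf ⟨0, 10775, 0, 0⟩))))
(.node (.node (.node (.leaf ⟨0, 6206, 0, 0⟩)
(.leaf ⟨1, 11, 21, 0⟩))
(.node (.leaf ⟨0, 7431, 0, 0⟩)
(.leaf ⟨1, 72, 80, 0⟩)))
(.node (.node (.leaf ⟨0, 11798, 0, 0⟩)
(.leaf ⟨0, 1383, 0, 0⟩))
(.node (.leaf ⟨0, 11720, 0, 0⟩)
(.leaf ⟨2, 2111, 0, 0⟩)))))))))
(.node (.node (.node (.node (.node (.node (.node (.node (.leaf ⟨1, 20, 6, 0⟩)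
(.leaf ⟨1, 17, 18, 0⟩))
(.node (.leaf ⟨2, 13587, 0, 0⟩)
(.leaf ⟨1, 19, 21, 0⟩)))
(.node (.node (.leaf ⟨1, 22, 67, 0⟩)
(.leaf ⟨0, 9779, 0, 0⟩))
(.node (.leaf ⟨0, 8763, 0, 0⟩)
(.leaf ⟨1, 18, 34, 0⟩))))
(.node (.node (.node (.leaf ⟨1, 16, 4, 0⟩)
(.leaf ⟨2, 6683, 0, 0⟩))
(.node (.leaf ⟨0, 12192, 0, 0⟩)
(.leaf ⟨0, 2363, 0, 0⟩)))
(.node (.node (.leaf ⟨0, 6604, 0, 0⟩)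
(.leaf ⟨1, 7, 49, 0⟩))
(.node (.leaf ⟨2, 14599, 0, 0⟩)
(.leaf ⟨1, 35, 49, 0⟩)))))
(.node (.node (.node (.node (.leaf ⟨1, 22, 49, 0⟩)
(.leaf ⟨1, 50, 21, 0⟩))
(.node (.leaf ⟨0, 7058, 0, 0⟩)
(.leaf ⟨0, 9333, 0, 0⟩)))
(.node (.node (.leaf ⟨2, 12935, 0, 0⟩)
(.leaf ⟨0, 14499, 0, 0⟩))
(.node (.leaf ⟨0, 10129, 0, 0⟩)
(.leaf ⟨0, 13453, 0, 0⟩))))
(.node (.node (.node (.leaf ⟨0, 762, 0, 0⟩)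
(.leaf ⟨0, 12000, 0, 0⟩))
(.node (.leaf ⟨2, 13395, 0, 0⟩)
(.leaf ⟨1, 7, 44, 0⟩)))
(.node (.node (.leaf ⟨0, 16004, 0, 0⟩)
(.leaf ⟨1, 8, 16, 0⟩))
(.node (.leaf ⟨0, 11156, 0, 0⟩)
(.leaf ⟨0, 16008, 0, 0⟩))))))
(.node (.node (.node (.node (.node (.leaf ⟨1, 108, 106, 0⟩)
(.leaf ⟨0, 4572, 0, 0⟩))
(.node (.leaf ⟨1, 49, 49, 0⟩)
(.leaf ⟨0, 13846, 0, 0⟩)))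
(.node (.node (.leaf ⟨1, 56, 21, 0⟩)
(.leaf ⟨0, 7904, 0, 0⟩))
(.node (.leaf ⟨1, 48, 6, 0⟩)
(.leaf ⟨0, 4271, 0, 0⟩))))
(.node (.node (.node (.leaf ⟨0, 7687, 0, 0⟩)
(.leaf ⟨2, 13835, 0, 0⟩))
(.node (.leaf ⟨0, 12056, 0, 0⟩)
(.leaf ⟨1, 41, 21, 0⟩)))
(.node (.node (.leaf ⟨0, 13969, 0, 0⟩)
(.leaf ⟨2, 2951, 0, 0⟩))
(.node (.leaf ⟨1, 6, 9, 0⟩)
(.leaf ⟨0, 10295, 0, 0⟩)))))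
(.node (.node (.node (.node (.leaf ⟨0, 1770, 0, 0⟩)
(.leaf ⟨0, 13702, 0, 0⟩))
(.node (.leaf ⟨2, 12559, 0, 0⟩)
(.leaf ⟨1, 40, 9, 0⟩)))
(.node (.node (.leaf ⟨1, 21, 14, 0⟩)
(.leaf ⟨0, 9700, 0, 0⟩))
(.node (.leaf ⟨1, 72, 72, 0⟩)
(.leaf ⟨0, 9712, 0, 0⟩))))
(.node (.node (.node (.leaf ⟨0, 7303, 0, 0⟩)
(.leaf ⟨0, 3810, 0, 0⟩))
(.node (.leaf ⟨1, 39, 51, 0⟩)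
(.leaf ⟨0, 10115, 0, 0⟩)))
(.node (.node (.leaf ⟨0, 8507, 0, 0⟩)
(.leaf ⟨1, 112, 44, 0⟩))
(.node (.leaf ⟨1, 66, 33, 0⟩)
(.leaf ⟨1, 82, 42, 0⟩)))))))
(.node (.node (.node (.node (.node (.node (.leaf ⟨0, 4315, 0, 0⟩)
(.leaf ⟨0, 4593, 0, 0⟩))
(.node (.leaf ⟨0, 13843, 0, 0⟩)
(.leaf ⟨1, 80, 66, 0⟩)))
(.node (.node (.leaf ⟨1, 100, 112, 0⟩)
(.leaf ⟨0, 11972, 0, 0⟩))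
(.node (.leaf ⟨1, 67, 11, 0⟩)
(.leaf ⟨0, 1341, 0, 0⟩))))
(.node (.node (.node (.leaf ⟨0, 5554, 0, 0⟩)
(.leaf ⟨0, 3127, 0, 0⟩))
(.node (.leaf ⟨1, 22, 112, 0⟩)
(.leaf ⟨1, 1, 4, 0⟩)))
(.node (.node (.leaf ⟨1, 33, 72, 0⟩)
(.leaf ⟨0, 13459, 0, 0⟩))
(.node (.leaf ⟨0, 2231, 0, 0⟩)
(.leaf ⟨0, 8096, 0, 0⟩)))))
(.node (.node (.node (.node (.leaf ⟨0, 1500, 0, 0⟩)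
(.leaf ⟨1, 21, 76, 0⟩))
(.node (.leaf ⟨0, 14411, 0, 0⟩)
(.leaf ⟨0, 12851, 0, 0⟩)))
(.node (.node (.leaf ⟨0, 9247, 0, 0⟩)
(.leaf ⟨0, 15010, 0, 0⟩))
(.node (.leaf ⟨1, 82, 49, 0⟩)
(.leaf ⟨0, 12487, 0, 0⟩))))
(.node (.node (.node (.leaf ⟨0, 3599, 0, 0⟩)
(.leaf ⟨0, 7826, 0, 0⟩))
(.node (.leaf ⟨2, 11139, 0, 0⟩)
(.leaf ⟨0, 1908, 0, 0⟩)))
(.node (.node (.leaf ⟨0, 3782, 0, 0⟩)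
(.leaf ⟨0, 15640, 0, 0⟩))
(.node (.leaf ⟨0, 5588, 0, 0⟩)
(.leaf ⟨0, 8430, 0, 0⟩))))))
(.node (.node (.node (.node (.node (.leaf ⟨0, 12379, 0, 0⟩)
(.leaf ⟨1, 113, 120, 0⟩))
(.node (.leaf ⟨0, 2173, 0, 0⟩)
(.leaf ⟨0, 14366, 0, 0⟩)))
(.node (.node (.leaf ⟨1, 21, 13, 0⟩)
(.leaf ⟨0, 1996, 0, 0⟩))
(.node (.leaf ⟨0, 998, 0, 0⟩)
(.leaf ⟨0, 15882, 0, 0⟩))))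
(.node (.node (.node (.leaf ⟨1, 22, 50, 0⟩)
(.leaf ⟨0, 13589, 0, 0⟩))
(.node (.leaf ⟨2, 11141, 0, 0⟩)
(.leaf ⟨0, 3151, 0, 0⟩)))
(.node (.node (.leaf ⟨0, 2621, 0, 0⟩)
(.leaf ⟨0, 1359, 0, 0⟩))
(.node (.leaf ⟨0, 1583, 0, 0⟩)
(.leaf ⟨1, 19, 7, 0⟩)))))
(.node (.node (.node (.node (.leaf ⟨1, 84, 70, 0⟩)
(.leaf ⟨1, 112, 35, 0⟩))
(.node (.leaf ⟨1, 7, 104, 0⟩)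
(.leaf ⟨0, 499, 0, 0⟩)))
(.node (.node (.leaf ⟨1, 112, 41, 0⟩)
(.leaf ⟨0, 7112, 0, 0⟩))
(.node (.leaf ⟨0, 14421, 0, 0⟩)
(.leaf ⟨1, 25, 19, 0⟩))))
(.node (.node (.node (.leaf ⟨0, 14988, 0, 0⟩)
(.leaf ⟨0, 2235, 0, 0⟩))
(.node (.leaf ⟨1, 67, 50, 0⟩)
(.leaf ⟨0, 14456, 0, 0⟩)))
(.node (.node (.leaf ⟨0, 1150, 0, 0⟩)
(.leaf ⟨1, 41, 50, 0⟩))
(.node (.leaf ⟨0, 14673, 0, 0⟩)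
(.leaf ⟨1, 82, 50, 0⟩))))))))
(.node (.node (.node (.node (.node (.node (.node (.leaf ⟨1, 80, 72, 0⟩)
(.leaf ⟨0, 4191, 0, 0⟩))
(.node (.leaf ⟨0, 9487, 0, 0⟩)
(.leaf ⟨1, 6, 40, 0⟩)))
(.node (.node (.leaf ⟨0, 13859, 0, 0⟩)
(.leaf ⟨0, 15009, 0, 0⟩))
(.node (.leaf ⟨0, 10391, 0, 0⟩)
(.leaf ⟨0, 5909, 0, 0⟩))))
(.node (.node (.node (.leaf ⟨0, 15776, 0, 0⟩)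
(.leaf ⟨1, 102, 102, 0⟩))
(.node (.leaf ⟨1, 21, 104, 0⟩)
(.leaf ⟨1, 48, 40, 0⟩)))
(.node (.node (.leaf ⟨0, 15650, 0, 0⟩)
(.leaf ⟨2, 14629, 0, 0⟩))
(.node (.leaf ⟨1, 6, 68, 0⟩)
(.leaf ⟨0, 9331, 0, 0⟩)))))
(.node (.node (.node (.node (.leaf ⟨0, 15664, 0, 0⟩)
(.leaf ⟨0, 2936, 0, 0⟩))
(.node (.leaf ⟨1, 17, 36, 0⟩)
(.leaf ⟨0, 12035, 0, 0⟩)))
(.node (.node (.leaf ⟨1, 112, 26, 0⟩)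
(.leaf ⟨0, 13447, 0, 0⟩))
(.node (.leaf ⟨1, 40, 10, 0⟩)
(.leaf ⟨0, 2351, 0, 0⟩))))
(.node (.node (.node (.leaf ⟨0, 3768, 0, 0⟩)
(.leaf ⟨1, 7, 76, 0⟩))
(.node (.leaf ⟨0, 14365, 0, 0⟩)
(.leaf ⟨1, 81, 42, 0⟩)))
(.node (.node (.leaf ⟨1, 102, 116, 0⟩)
(.leaf ⟨0, 10383, 0, 0⟩))
(.node (.leaf ⟨1, 84, 21, 0⟩)
(.leaf ⟨1, 88, 42, 0⟩))))))
(.node (.node (.node (.node (.node (.leaf ⟨1, 106, 108, 0⟩)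
(.leaf ⟨0, 5659, 0, 0⟩))
(.node (.leaf ⟨1, 97, 100, 0⟩)
(.leaf ⟨0, 14611, 0, 0⟩)))
(.node (.node (.leaf ⟨1, 68, 18, 0⟩)
(.leaf ⟨2, 15633, 0, 0⟩))
(.node (.leaf ⟨0, 8636, 0, 0⟩)
(.leaf ⟨1, 6, 48, 0⟩))))
(.node (.node (.node (.leaf ⟨0, 3223, 0, 0⟩)
(.leaf ⟨1, 11, 11, 0⟩))
(.node (.leaf ⟨0, 13792, 0, 0⟩)
(.leaf ⟨0, 1402, 0, 0⟩)))
(.node (.node (.leaf ⟨0, 13605, 0, 0⟩)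
(.leaf ⟨0, 2294, 0, 0⟩))
(.node (.leaf ⟨2, 13859, 0, 0⟩)
(.leaf ⟨0, 14097, 0, 0⟩)))))
(.node (.node (.node (.node (.leaf ⟨0, 431, 0, 0⟩)
(.leaf ⟨0, 15752, 0, 0⟩))
(.node (.leaf ⟨1, 6, 20, 0⟩)
(.leaf ⟨0, 13194, 0, 0⟩)))
(.node (.node (.leaf ⟨0, 12168, 0, 0⟩)
(.leaf ⟨2, 15491, 0, 0⟩))
(.node (.leaf ⟨0, 13249, 0, 0⟩)
(.leaf ⟨0, 319, 0, 0⟩))))
(.node (.node (.node (.leaf ⟨0, 15114, 0, 0⟩)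
(.leaf ⟨0, 10053, 0, 0⟩))
(.node (.leaf ⟨1, 22, 81, 0⟩)
(.leaf ⟨0, 1766, 0, 0⟩)))
(.node (.node (.leaf ⟨1, 22, 97, 0⟩)
(.leaf ⟨0, 13736, 0, 0⟩))
(.node (.leaf ⟨0, 8766, 0, 0⟩)
(.leaf ⟨1, 22, 22, 0⟩)))))))
(.node (.node (.node (.node (.node (.node (.leaf ⟨0, 11019, 0, 0⟩)
(.leaf ⟨2, 12379, 0, 0⟩))
(.node (.leaf ⟨0, 4439, 0, 0⟩)
(.leaf ⟨1, 74, 21, 0⟩)))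
(.node (.node (.leaf ⟨1, 112, 88, 0⟩)
(.leaf ⟨0, 15696, 0, 0⟩))
(.node (.leaf ⟨1, 76, 50, 0⟩)
(.leaf ⟨1, 76, 84, 0⟩))))
(.node (.node (.node (.leaf ⟨1, 48, 18, 0⟩)
(.leaf ⟨1, 66, 20, 0⟩))
(.node (.leaf ⟨1, 96, 3, 0⟩)
(.leaf ⟨2, 14979, 0, 0⟩)))
(.node (.node (.leaf ⟨0, 13342, 0, 0⟩)
(.leaf ⟨2, 14605, 0, 0⟩))
(.node (.leaf ⟨0, 12941, 0, 0⟩)
(.leaf ⟨0, 9144, 0, 0⟩)))))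
(.node (.node (.node (.node (.leaf ⟨0, 6535, 0, 0⟩)
(.leaf ⟨1, 96, 17, 0⟩))
(.node (.leaf ⟨0, 14613, 0, 0⟩)
(.leaf ⟨0, 7315, 0, 0⟩)))
(.node (.node (.leaf ⟨0, 4064, 0, 0⟩)
(.leaf ⟨0, 3540, 0, 0⟩))
(.node (.leaf ⟨1, 67, 21, 0⟩)
(.leaf ⟨0, 1398, 0, 0⟩))))
(.node (.node (.node (.leaf ⟨0, 15625, 0, 0⟩)
(.leaf ⟨1, 7, 28, 0⟩))
(.node (.leaf ⟨0, 10152, 0, 0⟩)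
(.leaf ⟨1, 12, 48, 0⟩)))
(.node (.node (.leaf ⟨0, 14855, 0, 0⟩)
(.leaf ⟨0, 4751, 0, 0⟩))
(.node (.leaf ⟨0, 12875, 0, 0⟩)
(.leaf ⟨0, 9307, 0, 0⟩))))))
(.node (.node (.node (.node (.node (.leaf ⟨0, 11533, 0, 0⟩)
(.leaf ⟨1, 7, 67, 0⟩))
(.node (.leaf ⟨0, 8692, 0, 0⟩)
(.leaf ⟨1, 39, 15, 0⟩)))
(.node (.node (.leaf ⟨1, 21, 98, 0⟩)
(.leaf ⟨1, 6, 65, 0⟩))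
(.node (.leaf ⟨1, 6, 3, 0⟩)
(.leaf ⟨1, 11, 42, 0⟩))))
(.node (.node (.node (.leaf ⟨0, 7060, 0, 0⟩)
(.leaf ⟨0, 5213, 0, 0⟩))
(.node (.leaf ⟨0, 3544, 0, 0⟩)
(.leaf ⟨0, 1509, 0, 0⟩)))
(.node (.node (.leaf ⟨0, 10005, 0, 0⟩)
(.leaf ⟨0, 10003, 0, 0⟩))
(.node (.leaf ⟨1, 114, 120, 0⟩)
(.leaf ⟨0, 11287, 0, 0⟩)))))
(.node (.node (.node (.node (.leaf ⟨0, 4034, 0, 0⟩)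
(.leaf ⟨0, 1658, 0, 0⟩))
(.node (.leaf ⟨1, 21, 50, 0⟩)
(.leaf ⟨0, 11921, 0, 0⟩)))
(.node (.node (.leaf ⟨2, 14351, 0, 0⟩)
(.leaf ⟨0, 2300, 0, 0⟩))
(.node (.leaf ⟨0, 15505, 0, 0⟩)
(.leaf ⟨0, 4759, 0, 0⟩))))
(.node (.node (.node (.leaf ⟨0, 953, 0, 0⟩)
(.leaf ⟨0, 13587, 0, 0⟩))
(.node (.leaf ⟨0, 7811, 0, 0⟩)
(.leaf ⟨0, 3159, 0, 0⟩)))
(.node (.node (.leaf ⟨0, 10891, 0, 0⟩)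
(.leaf ⟨0, 7848, 0, 0⟩))
(.node (.leaf ⟨0, 6415, 0, 0⟩)
(.leaf ⟨0, 5767, 0, 0⟩))))))))))
(.node (.node (.node (.node (.node (.node (.node (.node (.node (.node (.leaf ⟨0, 6640, 0, 0⟩)
(.leaf ⟨1, 65, 40, 0⟩))
(.leaf ⟨0, 2924, 0, 0⟩))
(.node (.leaf ⟨1, 3, 3, 0⟩)
(.leaf ⟨0, 13217, 0, 0⟩)))
(.node (.node (.leaf ⟨0, 11145, 0, 0⟩)
(.leaf ⟨0, 13976, 0, 0⟩))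
(.node (.leaf ⟨1, 26, 21, 0⟩)
(.leaf ⟨0, 1371, 0, 0⟩))))
(.node (.node (.node (.leaf ⟨0, 4887, 0, 0⟩)
(.leaf ⟨0, 1629, 0, 0⟩))
(.node (.leaf ⟨0, 1615, 0, 0⟩)
(.leaf ⟨0, 463, 0, 0⟩)))
(.node (.node (.leaf ⟨1, 22, 37, 0⟩)
(.leaf ⟨1, 16, 64, 0⟩))
(.node (.leaf ⟨1, 48, 3, 0⟩)
(.leaf ⟨2, 14889, 0, 0⟩)))))
(.node (.node (.node (.node (.leaf ⟨1, 107, 124, 0⟩)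
(.leaf ⟨1, 11, 35, 0⟩))
(.node (.leaf ⟨0, 12319, 0, 0⟩)
(.leaf ⟨1, 112, 82, 0⟩)))
(.node (.node (.leaf ⟨0, 3508, 0, 0⟩)
(.leaf ⟨0, 14114, 0, 0⟩))
(.node (.leaf ⟨0, 15427, 0, 0⟩)
(.leaf ⟨0, 14100, 0, 0⟩))))
(.node (.node (.node (.leaf ⟨0, 15170, 0, 0⟩)
(.leaf ⟨2, 12679, 0, 0⟩))
(.node (.leaf ⟨1, 17, 12, 0⟩)
(.leaf ⟨1, 5, 72, 0⟩)))
(.node (.node (.leaf ⟨1, 65, 72, 0⟩)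
(.leaf ⟨0, 7814, 0, 0⟩))
(.node (.leaf ⟨1, 33, 10, 0⟩)
(.leaf ⟨0, 14083, 0, 0⟩))))))
(.node (.node (.node (.node (.node (.leaf ⟨0, 14475, 0, 0⟩)
(.leaf ⟨0, 15506, 0, 0⟩))
(.node (.leaf ⟨1, 22, 35, 0⟩)
(.leaf ⟨1, 22, 41, 0⟩)))
(.node (.node (.leaf ⟨1, 124, 121, 0⟩)
(.leaf ⟨2, 14855, 0, 0⟩))
(.node (.leaf ⟨1, 21, 7, 0⟩)
(.leaf ⟨0, 5076, 0, 0⟩))))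
(.node (.node (.node (.leaf ⟨0, 1009, 0, 0⟩)
(.leaf ⟨1, 4, 32, 0⟩))
(.node (.leaf ⟨0, 1510, 0, 0⟩)
(.leaf ⟨2, 11783, 0, 0⟩)))
(.node (.node (.leaf ⟨0, 14375, 0, 0⟩)
(.leaf ⟨1, 68, 34, 0⟩))
(.node (.leaf ⟨1, 20, 10, 0⟩)
(.leaf ⟨2, 14725, 0, 0⟩)))))
(.node (.node (.node (.node (.leaf ⟨1, 48, 10, 0⟩)
(.leaf ⟨0, 10160, 0, 0⟩))
(.node (.leaf ⟨1, 21, 67, 0⟩)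
(.leaf ⟨0, 2335, 0, 0⟩)))
(.node (.node (.leaf ⟨1, 18, 96, 0⟩)
(.leaf ⟨0, 7136, 0, 0⟩))
(.node (.leaf ⟨0, 6430, 0, 0⟩)
(.leaf ⟨1, 22, 73, 0⟩))))
(.node (.node (.node (.leaf ⟨0, 827, 0, 0⟩)
(.leaf ⟨0, 6302, 0, 0⟩))
(.node (.leaf ⟨1, 39, 39, 0⟩)
(.leaf ⟨0, 7318, 0, 0⟩)))
(.node (.node (.leaf ⟨0, 2383, 0, 0⟩)
(.leaf ⟨1, 112, 50, 0⟩))
(.node (.leaf ⟨1, 96, 5, 0⟩)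
(.leaf ⟨0, 4455, 0, 0⟩)))))))
(.node (.node (.node (.node (.node (.node (.leaf ⟨1, 40, 34, 0⟩)
(.leaf ⟨1, 12, 33, 0⟩))
(.node (.leaf ⟨1, 7, 50, 0⟩)
(.leaf ⟨2, 14363, 0, 0⟩)))
(.node (.node (.leaf ⟨0, 6612, 0, 0⟩)
(.leaf ⟨0, 1722, 0, 0⟩))
(.node (.leaf ⟨0, 15681, 0, 0⟩)
(.leaf ⟨0, 14148, 0, 0⟩))))
(.node (.node (.node (.leaf ⟨0, 10009, 0, 0⟩)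
(.leaf ⟨0, 1404, 0, 0⟩))
(.node (.leaf ⟨0, 13451, 0, 0⟩)
(.leaf ⟨0, 9309, 0, 0⟩)))
(.node (.node (.leaf ⟨0, 13761, 0, 0⟩)
(.leaf ⟨1, 112, 67, 0⟩))
(.node (.leaf ⟨0, 6231, 0, 0⟩)
(.leaf ⟨0, 14726, 0, 0⟩)))))
(.node (.node (.node (.node (.leaf ⟨1, 2, 8, 0⟩)
(.leaf ⟨1, 19, 35, 0⟩))
(.node (.leaf ⟨0, 5080, 0, 0⟩)
(.leaf ⟨2, 5151, 0, 0⟩)))
(.node (.node (.leaf ⟨0, 6454, 0, 0⟩)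
(.leaf ⟨1, 35, 11, 0⟩))
(.node (.leaf ⟨1, 19, 67, 0⟩)
(.leaf ⟨1, 9, 20, 0⟩))))
(.node (.node (.node (.leaf ⟨1, 10, 34, 0⟩)
(.leaf ⟨0, 1780, 0, 0⟩))
(.node (.leaf ⟨0, 14210, 0, 0⟩)
(.leaf ⟨1, 5, 68, 0⟩)))
(.node (.node (.leaf ⟨0, 6191, 0, 0⟩)
(.leaf ⟨0, 5271, 0, 0⟩))
(.node (.leaf ⟨0, 13732, 0, 0⟩)
(.leaf ⟨0, 1342, 0, 0⟩))))))
(.node (.node (.node (.node (.node (.leaf ⟨1, 28, 21, 0⟩)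
(.leaf ⟨0, 9340, 0, 0⟩))
(.node (.leaf ⟨1, 17, 40, 0⟩)
(.leaf ⟨0, 6727, 0, 0⟩)))
(.node (.node (.leaf ⟨0, 12445, 0, 0⟩)
(.leaf ⟨1, 22, 26, 0⟩))
(.node (.leaf ⟨0, 375, 0, 0⟩)
(.leaf ⟨1, 22, 69, 0⟩))))
(.node (.node (.node (.leaf ⟨0, 13341, 0, 0⟩)
(.leaf ⟨0, 1239, 0, 0⟩))
(.node (.leaf ⟨1, 17, 66, 0⟩)
(.leaf ⟨0, 1231, 0, 0⟩)))
(.node (.node (.leaf ⟨1, 38, 50, 0⟩)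
(.leaf ⟨2, 15889, 0, 0⟩))
(.node (.leaf ⟨1, 65, 20, 0⟩)
(.leaf ⟨1, 6, 66, 0⟩)))))
(.node (.node (.node (.node (.leaf ⟨1, 40, 40, 0⟩)
(.leaf ⟨0, 14098, 0, 0⟩))
(.node (.leaf ⟨1, 20, 17, 0⟩)
(.leaf ⟨0, 4004, 0, 0⟩)))
(.node (.node (.leaf ⟨1, 13, 13, 0⟩)
(.leaf ⟨0, 13744, 0, 0⟩))
(.node (.leaf ⟨1, 88, 50, 0⟩)
(.leaf ⟨2, 12367, 0, 0⟩))))
(.node (.node (.node (.leaf ⟨0, 379, 0, 0⟩)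
(.leaf ⟨0, 11541, 0, 0⟩))
(.node (.leaf ⟨1, 12, 40, 0⟩)
(.leaf ⟨1, 19, 11, 0⟩)))
(.node (.node (.leaf ⟨0, 9310, 0, 0⟩)
(.leaf ⟨0, 9743, 0, 0⟩))
(.node (.leaf ⟨0, 988, 0, 0⟩)
(.leaf ⟨0, 4495, 0, 0⟩))))))))
(.node (.node (.node (.node (.node (.node (.node (.leaf ⟨0, 3568, 0, 0⟩)
(.leaf ⟨0, 6019, 0, 0⟩))
(.node (.leaf ⟨2, 14471, 0, 0⟩)
(.leaf ⟨2, 14873, 0, 0⟩)))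
(.node (.node (.leaf ⟨1, 112, 25, 0⟩)
(.leaf ⟨0, 14760, 0, 0⟩))
(.node (.leaf ⟨1, 104, 49, 0⟩)
(.leaf ⟨0, 6446, 0, 0⟩))))
(.node (.node (.node (.leaf ⟨1, 100, 76, 0⟩)
(.leaf ⟨0, 2540, 0, 0⟩))
(.node (.leaf ⟨0, 14603, 0, 0⟩)
(.leaf ⟨0, 14617, 0, 0⟩)))
(.node (.node (.leaf ⟨2, 15619, 0, 0⟩)
(.leaf ⟨0, 15381, 0, 0⟩))
(.node (.leaf ⟨0, 9923, 0, 0⟩)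
(.leaf ⟨0, 4215, 0, 0⟩)))))
(.node (.node (.node (.node (.leaf ⟨0, 1311, 0, 0⟩)
(.leaf ⟨0, 14627, 0, 0⟩))
(.node (.leaf ⟨2, 8255, 0, 0⟩)
(.leaf ⟨1, 7, 74, 0⟩)))
(.node (.node (.leaf ⟨0, 12037, 0, 0⟩)
(.leaf ⟨1, 56, 112, 0⟩))
(.node (.leaf ⟨1, 96, 36, 0⟩)
(.leaf ⟨0, 6036, 0, 0⟩))))
(.node (.node (.node (.leaf ⟨0, 2391, 0, 0⟩)
(.leaf ⟨1, 21, 41, 0⟩))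
(.node (.leaf ⟨0, 14867, 0, 0⟩)
(.leaf ⟨0, 6254, 0, 0⟩)))
(.node (.node (.leaf ⟨1, 122, 115, 0⟩)
(.leaf ⟨1, 9, 72, 0⟩))
(.node (.leaf ⟨1, 17, 34, 0⟩)
(.leaf ⟨0, 381, 0, 0⟩))))))
(.node (.node (.node (.node (.node (.leaf ⟨0, 15169, 0, 0⟩)
(.leaf ⟨1, 25, 49, 0⟩))
(.node (.leaf ⟨0, 7380, 0, 0⟩)
(.leaf ⟨2, 15745, 0, 0⟩)))
(.node (.node (.leaf ⟨0, 3847, 0, 0⟩)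
(.leaf ⟨0, 4207, 0, 0⟩))
(.node (.leaf ⟨1, 15, 39, 0⟩)
(.leaf ⟨0, 15124, 0, 0⟩))))
(.node (.node (.node (.leaf ⟨1, 7, 112, 0⟩)
(.leaf ⟨0, 4588, 0, 0⟩))
(.node (.leaf ⟨0, 15896, 0, 0⟩)
(.leaf ⟨2, 13327, 0, 0⟩)))
(.node (.node (.leaf ⟨0, 1374, 0, 0⟩)
(.leaf ⟨0, 9607, 0, 0⟩))
(.node (.leaf ⟨2, 4999, 0, 0⟩)
(.leaf ⟨0, 15122, 0, 0⟩)))))
(.node (.node (.node (.node (.leaf ⟨0, 14883, 0, 0⟩)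
(.leaf ⟨0, 4443, 0, 0⟩))
(.node (.leaf ⟨2, 12567, 0, 0⟩)
(.leaf ⟨0, 3193, 0, 0⟩)))
(.node (.node (.leaf ⟨0, 9997, 0, 0⟩)
(.leaf ⟨2, 12439, 0, 0⟩))
(.node (.leaf ⟨0, 14661, 0, 0⟩)
(.leaf ⟨1, 96, 9, 0⟩))))
(.node (.node (.node (.leaf ⟨0, 799, 0, 0⟩)
(.leaf ⟨1, 44, 42, 0⟩))
(.node (.leaf ⟨1, 26, 50, 0⟩)
(.leaf ⟨1, 112, 13, 0⟩)))
(.node (.node (.leaf ⟨0, 11527, 0, 0⟩)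
(.leaf ⟨2, 4639, 0, 0⟩))
(.node (.leaf ⟨0, 14915, 0, 0⟩)
(.leaf ⟨1, 11, 7, 0⟩)))))))
(.node (.node (.node (.node (.node (.node (.leaf ⟨1, 12, 24, 0⟩)
(.leaf ⟨0, 11714, 0, 0⟩))
(.node (.leaf ⟨2, 13955, 0, 0⟩)
(.leaf ⟨0, 1004, 0, 0⟩)))
(.node (.node (.leaf ⟨0, 15682, 0, 0⟩)
(.leaf ⟨1, 34, 34, 0⟩))
(.node (.leaf ⟨0, 8847, 0, 0⟩)
(.leaf ⟨1, 80, 33, 0⟩))))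
(.node (.node (.node (.leaf ⟨0, 847, 0, 0⟩)
(.leaf ⟨0, 8751, 0, 0⟩))
(.node (.leaf ⟨0, 631, 0, 0⟩)
(.leaf ⟨2, 10779, 0, 0⟩)))
(.node (.node (.leaf ⟨1, 76, 21, 0⟩)
(.leaf ⟨0, 14889, 0, 0⟩))
(.node (.leaf ⟨1, 68, 3, 0⟩)
(.leaf ⟨0, 7443, 0, 0⟩)))))
(.node (.node (.node (.node (.leaf ⟨1, 80, 34, 0⟩)
(.leaf ⟨1, 15, 71, 0⟩))
(.node (.leaf ⟨0, 1199, 0, 0⟩)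
(.leaf ⟨1, 34, 9, 0⟩)))
(.node (.node (.leaf ⟨0, 6443, 0, 0⟩)
(.leaf ⟨0, 13220, 0, 0⟩))
(.node (.leaf ⟨1, 100, 98, 0⟩)
(.leaf ⟨0, 14800, 0, 0⟩))))
(.node (.node (.node (.leaf ⟨1, 71, 15, 0⟩)
(.leaf ⟨1, 7, 19, 0⟩))
(.node (.leaf ⟨0, 10419, 0, 0⟩)
(.leaf ⟨0, 15491, 0, 0⟩)))
(.node (.node (.leaf ⟨1, 116, 101, 0⟩)
(.leaf ⟨1, 19, 25, 0⟩))
(.node (.leaf ⟨1, 10, 24, 0⟩)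
(.leaf ⟨1, 114, 114, 0⟩))))))
(.node (.node (.node (.node (.node (.leaf ⟨0, 15688, 0, 0⟩)
(.leaf ⟨0, 575, 0, 0⟩))
(.node (.leaf ⟨0, 14870, 0, 0⟩)
(.leaf ⟨0, 4303, 0, 0⟩)))
(.node (.node (.leaf ⟨0, 5227, 0, 0⟩)
(.leaf ⟨0, 4040, 0, 0⟩))
(.node (.leaf ⟨0, 10136, 0, 0⟩)
(.leaf ⟨0, 2167, 0, 0⟩))))
(.node (.node (.node (.leaf ⟨2, 15121, 0, 0⟩)
(.leaf ⟨0, 6238, 0, 0⟩))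
(.node (.leaf ⟨0, 14419, 0, 0⟩)
(.leaf ⟨0, 9326, 0, 0⟩)))
(.node (.node (.leaf ⟨1, 48, 12, 0⟩)
(.leaf ⟨0, 14605, 0, 0⟩))
(.node (.leaf ⟨1, 68, 20, 0⟩)
(.leaf ⟨0, 10180, 0, 0⟩)))))
(.node (.node (.node (.node (.leaf ⟨1, 112, 37, 0⟩)
(.leaf ⟨0, 12559, 0, 0⟩))
(.node (.leaf ⟨2, 1149, 0, 0⟩)
(.leaf ⟨0, 4891, 0, 0⟩)))
(.node (.node (.leaf ⟨2, 15169, 0, 0⟩)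
(.leaf ⟨1, 36, 24, 0⟩))
(.node (.leaf ⟨0, 15107, 0, 0⟩)
(.leaf ⟨1, 122, 117, 0⟩))))
(.node (.node (.node (.leaf ⟨1, 72, 5, 0⟩)
(.leaf ⟨1, 80, 12, 0⟩))
(.node (.leaf ⟨0, 2018, 0, 0⟩)
(.leaf ⟨0, 13335, 0, 0⟩)))
(.node (.node (.leaf ⟨0, 6429, 0, 0⟩)
(.leaf ⟨1, 25, 42, 0⟩))
(.node (.leaf ⟨0, 15000, 0, 0⟩)
(.leaf ⟨1, 91, 31, 0⟩)))))))))
(.node (.node (.node (.node (.node (.node (.node (.node (.leaf ⟨1, 75, 27, 0⟩)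
(.leaf ⟨0, 11922, 0, 0⟩))
(.node (.leaf ⟨2, 7691, 0, 0⟩)
(.leaf ⟨0, 2534, 0, 0⟩)))
(.node (.node (.leaf ⟨1, 28, 49, 0⟩)
(.leaf ⟨2, 15373, 0, 0⟩))
(.node (.leaf ⟨1, 18, 9, 0⟩)
(.leaf ⟨1, 48, 9, 0⟩))))
(.node (.node (.node (.leaf ⟨0, 14599, 0, 0⟩)
(.leaf ⟨0, 10121, 0, 0⟩))
(.node (.leaf ⟨0, 11399, 0, 0⟩)
(.leaf ⟨1, 24, 34, 0⟩)))
(.node (.node (.leaf ⟨1, 40, 24, 0⟩)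
(.leaf ⟨1, 65, 9, 0⟩))
(.node (.leaf ⟨0, 16132, 0, 0⟩)
(.leaf ⟨0, 14224, 0, 0⟩)))))
(.node (.node (.node (.node (.leaf ⟨0, 6299, 0, 0⟩)
(.leaf ⟨0, 13730, 0, 0⟩))
(.node (.leaf ⟨1, 21, 26, 0⟩)
(.leaf ⟨0, 6251, 0, 0⟩)))
(.node (.node (.leaf ⟨0, 10899, 0, 0⟩)
(.leaf ⟨1, 33, 24, 0⟩))
(.node (.leaf ⟨1, 68, 9, 0⟩)
(.leaf ⟨0, 2492, 0, 0⟩))))
(.node (.node (.node (.leaf ⟨1, 7, 35, 0⟩)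
(.leaf ⟨0, 6427, 0, 0⟩))
(.node (.leaf ⟨2, 15107, 0, 0⟩)
(.leaf ⟨1, 20, 68, 0⟩)))
(.node (.node (.leaf ⟨0, 15684, 0, 0⟩)
(.leaf ⟨0, 14092, 0, 0⟩))
(.node (.leaf ⟨1, 34, 33, 0⟩)
(.leaf ⟨1, 12, 5, 0⟩))))))
(.node (.node (.node (.node (.node (.leaf ⟨1, 72, 10, 0⟩)
(.leaf ⟨0, 10767, 0, 0⟩))
(.node (.leaf ⟨0, 14729, 0, 0⟩)
(.leaf ⟨1, 88, 21, 0⟩)))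
(.node (.node (.leaf ⟨0, 3056, 0, 0⟩)
(.leaf ⟨0, 10021, 0, 0⟩))
(.node (.leaf ⟨0, 13713, 0, 0⟩)
(.leaf ⟨0, 506, 0, 0⟩))))
(.node (.node (.node (.leaf ⟨1, 27, 43, 0⟩)
(.leaf ⟨0, 8563, 0, 0⟩))
(.node (.leaf ⟨2, 10361, 0, 0⟩)
(.leaf ⟨0, 6084, 0, 0⟩)))
(.node (.node (.leaf ⟨0, 9192, 0, 0⟩)
(.leaf ⟨0, 12391, 0, 0⟩))
(.node (.leaf ⟨2, 12343, 0, 0⟩)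
(.leaf ⟨0, 11141, 0, 0⟩)))))
(.node (.node (.node (.node (.leaf ⟨0, 3812, 0, 0⟩)
(.leaf ⟨1, 84, 112, 0⟩))
(.node (.leaf ⟨1, 31, 79, 0⟩)
(.leaf ⟨1, 1, 2, 0⟩)))
(.node (.node (.leaf ⟨2, 13459, 0, 0⟩)
(.leaf ⟨0, 3796, 0, 0⟩))
(.node (.leaf ⟨1, 34, 5, 0⟩)
(.leaf ⟨0, 14737, 0, 0⟩))))
(.node (.node (.node (.leaf ⟨0, 1143, 0, 0⟩)
(.leaf ⟨1, 98, 82, 0⟩))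
(.node (.leaf ⟨1, 6, 72, 0⟩)
(.leaf ⟨2, 8379, 0, 0⟩)))
(.node (.node (.leaf ⟨1, 49, 42, 0⟩)
(.leaf ⟨0, 10915, 0, 0⟩))
(.node (.leaf ⟨1, 11, 26, 0⟩)
(.leaf ⟨0, 13582, 0, 0⟩)))))))
(.node (.node (.node (.node (.node (.node (.leaf ⟨1, 76, 76, 0⟩)
(.leaf ⟨2, 15395, 0, 0⟩))
(.node (.leaf ⟨2, 12443, 0, 0⟩)
(.leaf ⟨2, 12335, 0, 0⟩)))
(.node (.node (.leaf ⟨2, 13831, 0, 0⟩)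
(.leaf ⟨0, 2619, 0, 0⟩))
(.node (.leaf ⟨1, 20, 48, 0⟩)
(.leaf ⟨0, 11909, 0, 0⟩))))
(.node (.node (.node (.leaf ⟨0, 10795, 0, 0⟩)
(.leaf ⟨0, 1373, 0, 0⟩))
(.node (.leaf ⟨0, 5858, 0, 0⟩)
(.leaf ⟨0, 13363, 0, 0⟩)))
(.node (.node (.leaf ⟨1, 9, 5, 0⟩)
(.leaf ⟨0, 1147, 0, 0⟩))
(.node (.leaf ⟨1, 112, 38, 0⟩)
(.leaf ⟨1, 112, 14, 0⟩)))))
(.node (.node (.node (.node (.leaf ⟨1, 80, 18, 0⟩)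
(.leaf ⟨0, 14212, 0, 0⟩))
(.node (.leaf ⟨0, 9263, 0, 0⟩)
(.leaf ⟨0, 14786, 0, 0⟩)))
(.node (.node (.leaf ⟨0, 11913, 0, 0⟩)
(.leaf ⟨1, 5, 17, 0⟩))
(.node (.leaf ⟨1, 11, 50, 0⟩)
(.leaf ⟨0, 2808, 0, 0⟩))))
(.node (.node (.node (.leaf ⟨2, 1135, 0, 0⟩)
(.leaf ⟨1, 20, 12, 0⟩))
(.node (.leaf ⟨0, 1183, 0, 0⟩)
(.leaf ⟨0, 3163, 0, 0⟩)))
(.node (.node (.leaf ⟨2, 14083, 0, 0⟩)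
(.leaf ⟨1, 13, 49, 0⟩))
(.node (.leaf ⟨1, 68, 96, 0⟩)
(.leaf ⟨0, 10488, 0, 0⟩))))))
(.node (.node (.node (.node (.node (.leaf ⟨0, 2398, 0, 0⟩)
(.leaf ⟨0, 13190, 0, 0⟩))
(.node (.leaf ⟨0, 4048, 0, 0⟩)
(.leaf ⟨0, 3020, 0, 0⟩)))
(.node (.node (.leaf ⟨1, 112, 28, 0⟩)
(.leaf ⟨2, 13363, 0, 0⟩))
(.node (.leaf ⟨1, 5, 36, 0⟩)
(.leaf ⟨0, 15382, 0, 0⟩))))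
(.node (.node (.node (.leaf ⟨1, 17, 20, 0⟩)
(.leaf ⟨0, 15121, 0, 0⟩))
(.node (.leaf ⟨0, 4317, 0, 0⟩)
(.leaf ⟨1, 22, 19, 0⟩)))
(.node (.node (.leaf ⟨0, 2591, 0, 0⟩)
(.leaf ⟨1, 14, 49, 0⟩))
(.node (.leaf ⟨1, 70, 50, 0⟩)
(.leaf ⟨1, 22, 44, 0⟩)))))
(.node (.node (.node (.node (.leaf ⟨1, 81, 50, 0⟩)
(.leaf ⟨1, 21, 38, 0⟩))
(.node (.leaf ⟨0, 3308, 0, 0⟩)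
(.leaf ⟨0, 9371, 0, 0⟩)))
(.node (.node (.leaf ⟨0, 5096, 0, 0⟩)
(.leaf ⟨1, 5, 12, 0⟩))
(.node (.leaf ⟨0, 3134, 0, 0⟩)
(.leaf ⟨1, 100, 50, 0⟩))))
(.node (.node (.node (.leaf ⟨0, 2285, 0, 0⟩)
(.leaf ⟨0, 10887, 0, 0⟩))
(.node (.leaf ⟨1, 84, 76, 0⟩)
(.leaf ⟨0, 2639, 0, 0⟩)))
(.node (.node (.leaf ⟨1, 40, 72, 0⟩)
(.leaf ⟨1, 34, 17, 0⟩))
(.node (.leaf ⟨0, 13327, 0, 0⟩)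
(.leaf ⟨0, 5403, 0, 0⟩))))))))
(.node (.node (.node (.node (.node (.node (.node (.leaf ⟨1, 68, 33, 0⟩)
(.leaf ⟨1, 21, 70, 0⟩))
(.node (.leaf ⟨1, 72, 48, 0⟩)
(.leaf ⟨1, 9, 48, 0⟩)))
(.node (.node (.leaf ⟨0, 3731, 0, 0⟩)
(.leaf ⟨0, 15016, 0, 0⟩))
(.node (.leaf ⟨0, 761, 0, 0⟩)
(.leaf ⟨1, 68, 66, 0⟩))))
(.node (.node (.node (.leaf ⟨0, 9891, 0, 0⟩)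
(.leaf ⟨0, 502, 0, 0⟩))
(.node (.leaf ⟨1, 17, 6, 0⟩)
(.leaf ⟨1, 5, 20, 0⟩)))
(.node (.node (.leaf ⟨1, 21, 112, 0⟩)
(.leaf ⟨0, 9295, 0, 0⟩))
(.node (.leaf ⟨0, 1335, 0, 0⟩)
(.leaf ⟨0, 16144, 0, 0⟩)))))
(.node (.node (.node (.node (.leaf ⟨0, 13201, 0, 0⟩)
(.leaf ⟨1, 7, 97, 0⟩))
(.node (.leaf ⟨1, 69, 21, 0⟩)
(.leaf ⟨0, 638, 0, 0⟩)))
(.node (.node (.leaf ⟨1, 104, 88, 0⟩)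
(.leaf ⟨0, 15056, 0, 0⟩))
(.node (.leaf ⟨2, 8763, 0, 0⟩)
(.leaf ⟨0, 14986, 0, 0⟩))))
(.node (.node (.node (.leaf ⟨1, 5, 34, 0⟩)
(.leaf ⟨0, 15233, 0, 0⟩))
(.node (.leaf ⟨0, 4445, 0, 0⟩)
(.leaf ⟨1, 8, 1, 0⟩)))
(.node (.node (.leaf ⟨0, 14816, 0, 0⟩)
(.leaf ⟨0, 14363, 0, 0⟩))
(.node (.leaf ⟨0, 382, 0, 0⟩)
(.leaf ⟨0, 14146, 0, 0⟩))))))
(.node (.node (.node (.node (.node (.leaf ⟨0, 9698, 0, 0⟩)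
(.leaf ⟨1, 84, 49, 0⟩))
(.node (.leaf ⟨0, 5976, 0, 0⟩)
(.leaf ⟨0, 15622, 0, 0⟩)))
(.node (.node (.leaf ⟨1, 18, 40, 0⟩)
(.leaf ⟨0, 367, 0, 0⟩))
(.node (.leaf ⟨1, 10, 9, 0⟩)
(.leaf ⟨0, 5308, 0, 0⟩))))
(.node (.node (.node (.leaf ⟨0, 14874, 0, 0⟩)
(.leaf ⟨1, 112, 84, 0⟩))
(.node (.leaf ⟨0, 12052, 0, 0⟩)
(.leaf ⟨0, 13701, 0, 0⟩)))
(.node (.node (.leaf ⟨1, 17, 5, 0⟩)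
(.leaf ⟨1, 65, 48, 0⟩))
(.node (.leaf ⟨0, 2537, 0, 0⟩)
(.leaf ⟨1, 112, 98, 0⟩)))))
(.node (.node (.node (.node (.leaf ⟨1, 25, 50, 0⟩)
(.leaf ⟨1, 5, 10, 0⟩))
(.node (.leaf ⟨0, 2269, 0, 0⟩)
(.leaf ⟨0, 13831, 0, 0⟩)))
(.node (.node (.leaf ⟨0, 1976, 0, 0⟩)
(.leaf ⟨1, 48, 24, 0⟩))
(.node (.leaf ⟨2, 13335, 0, 0⟩)
(.leaf ⟨0, 11665, 0, 0⟩))))
(.node (.node (.node (.leaf ⟨2, 2537, 0, 0⟩)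
(.leaf ⟨0, 1942, 0, 0⟩))
(.node (.leaf ⟨0, 11293, 0, 0⟩)
(.leaf ⟨0, 14859, 0, 0⟩)))
(.node (.node (.leaf ⟨0, 13081, 0, 0⟩)
(.leaf ⟨0, 13849, 0, 0⟩))
(.node (.leaf ⟨0, 14738, 0, 0⟩)
(.leaf ⟨0, 2796, 0, 0⟩)))))))
(.node (.node (.node (.node (.node (.node (.leaf ⟨0, 4414, 0, 0⟩)
(.leaf ⟨2, 14613, 0, 0⟩))
(.node (.leaf ⟨0, 9757, 0, 0⟩)
(.leaf ⟨0, 5592, 0, 0⟩)))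
(.node (.node (.leaf ⟨0, 2622, 0, 0⟩)
(.leaf ⟨0, 3131, 0, 0⟩))
(.node (.leaf ⟨0, 1528, 0, 0⟩)
(.leaf ⟨2, 14861, 0, 0⟩))))
(.node (.node (.node (.leaf ⟨0, 892, 0, 0⟩)
(.leaf ⟨0, 16130, 0, 0⟩))
(.node (.leaf ⟨2, 12049, 0, 0⟩)
(.leaf ⟨1, 36, 17, 0⟩)))
(.node (.node (.leaf ⟨2, 11279, 0, 0⟩)
(.leaf ⟨1, 26, 11, 0⟩))
(.node (.leaf ⟨2, 7699, 0, 0⟩)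
(.leaf ⟨0, 10145, 0, 0⟩)))))
(.node (.node (.node (.node (.leaf ⟨1, 48, 20, 0⟩)
(.leaf ⟨2, 127, 0, 0⟩))
(.node (.leaf ⟨1, 109, 124, 0⟩)
(.leaf ⟨0, 15137, 0, 0⟩)))
(.node (.node (.leaf ⟨0, 10779, 0, 0⟩)
(.leaf ⟨2, 3193, 0, 0⟩))
(.node (.leaf ⟨1, 21, 11, 0⟩)
(.leaf ⟨0, 3560, 0, 0⟩))))
(.node (.node (.node (.leaf ⟨1, 12, 17, 0⟩)
(.leaf ⟨0, 5399, 0, 0⟩))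
(.node (.leaf ⟨0, 13193, 0, 0⟩)
(.leaf ⟨1, 4, 2, 0⟩)))
(.node (.node (.leaf ⟨0, 12161, 0, 0⟩)
(.leaf ⟨0, 10947, 0, 0⟩))
(.node (.leaf ⟨0, 10395, 0, 0⟩)
(.leaf ⟨1, 49, 21, 0⟩))))))
(.node (.node (.node (.node (.node (.leaf ⟨0, 4346, 0, 0⟩)
(.leaf ⟨0, 13649, 0, 0⟩))
(.node (.leaf ⟨1, 96, 24, 0⟩)
(.leaf ⟨0, 3103, 0, 0⟩)))
(.node (.node (.leaf ⟨1, 65, 24, 0⟩)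
(.leaf ⟨0, 5526, 0, 0⟩))
(.node (.leaf ⟨0, 15113, 0, 0⟩)
(.leaf ⟨0, 6237, 0, 0⟩))))
(.node (.node (.node (.leaf ⟨0, 15110, 0, 0⟩)
(.leaf ⟨1, 9, 18, 0⟩))
(.node (.leaf ⟨1, 69, 50, 0⟩)
(.leaf ⟨0, 986, 0, 0⟩)))
(.node (.node (.leaf ⟨0, 6806, 0, 0⟩)
(.leaf ⟨0, 12679, 0, 0⟩))
(.node (.leaf ⟨1, 12, 9, 0⟩)
(.leaf ⟨0, 3973, 0, 0⟩)))))
(.node (.node (.node (.node (.leaf ⟨0, 15385, 0, 0⟩)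
(.leaf ⟨1, 22, 21, 0⟩))
(.node (.leaf ⟨0, 2270, 0, 0⟩)
(.leaf ⟨0, 8407, 0, 0⟩)))
(.node (.node (.leaf ⟨0, 4850, 0, 0⟩)
(.leaf ⟨1, 51, 23, 0⟩))
(.node (.leaf ⟨0, 15508, 0, 0⟩)
(.leaf ⟨2, 2171, 0, 0⟩))))
(.node (.node (.node (.leaf ⟨0, 2255, 0, 0⟩)
(.leaf ⟨0, 15441, 0, 0⟩))
(.node (.leaf ⟨1, 72, 17, 0⟩)
(.leaf ⟨1, 68, 48, 0⟩)))
(.node (.node (.leaf ⟨1, 20, 18, 0⟩)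
(.leaf ⟨0, 13705, 0, 0⟩))
(.node (.leaf ⟨0, 7648, 0, 0⟩)
(.leaf ⟨1, 21, 35, 0⟩))))))))))))

end Pool.Agent.Gab7_h87.CB
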